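import Pool.Agent.Lib.TDen.Rec2

/-!
# Degrees in the minors: basic notions
-/

set_option autoImplicit false

namespace Pool.Agent.Lib.TDisc

open Pool.Agent.Lib.TDen

/-- the edge `e` has an end in the component `c` -/
def Touch {V E : Type} (g : E → V × V) (B : Finset E) (c : Comp g B) (e : E) : Prop :=
  (Quot.mk (Rel g B) (g e).1 : Comp g B) = c ∨ (Quot.mk (Rel g B) (g e).2 : Comp g B) = c

/-- no edge of `R` has both ends in the same component of `(V, B)` -/
def NoLoop {V E : Type} (g : E → V × V) (B R : Finset E) : Prop :=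
  ∀ e ∈ R, ¬ Conn g B (g e).1 (g e).2

/-- the induction hypothesis: `N ≤ x k` whenever the rest has `k` elements, `4 ≤ k < n` -/
def Hyp (D : Diagram) (x : ℕ → ℝ) (n : ℕ) : Prop :=
  ∀ (A' B' : Finset D.E) (k : ℕ), Disjoint A' B' → (D.rest A' B').card = k → 4 ≤ k → k < n →
    (D.N A' B' : ℝ) ≤ x k

lemma mem_rest_iff {D : Diagram} {A B : Finset D.E} {e : D.E} :
    e ∈ D.rest A B ↔ e ∉ A ∧ e ∉ B := by
  unfold Diagram.rest
  rw [Finset.mem_compl, Finset.mem_union, not_or]

lemma rest_insert_left {D : Diagram} {A B : Finset D.E} {e : D.E} :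
    D.rest (insert e A) B = (D.rest A B).erase e := by
  ext x
  rw [Finset.mem_erase, mem_rest_iff, mem_rest_iff, Finset.mem_insert]
  tauto

lemma rest_insert_right {D : Diagram} {A B : Finset D.E} {e : D.E} :
    D.rest A (insert e B) = (D.rest A B).erase e := by
  ext x
  rw [Finset.mem_erase, mem_rest_iff, mem_rest_iff, Finset.mem_insert]
  tauto

lemma N_mono_left {D : Diagram} {A A' B : Finset D.E} (h : A ⊆ A') : D.N A' B ≤ D.N A B := by
  unfold Diagram.N
  refine Finset.card_le_card fun S hS => ?_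
  rw [Diagram.mem_trees] at hS ⊢
  exact ⟨hS.1, Finset.disjoint_of_subset_left h hS.2.1, hS.2.2⟩

/-- if the ends of `e` are connected by `B` (and `e ∉ B`) then no tree contains `B` and `e` -/
lemma N_insert_of_conn {D : Diagram} {A B : Finset D.E} {e : D.E} (he : e ∉ B)
    (hc : Conn D.g B (D.g e).1 (D.g e).2) : D.N A (insert e B) = 0 := by
  unfold Diagram.N
  rw [Finset.card_eq_zero, Finset.eq_empty_iff_forall_notMem]
  intro S hS
  rw [Diagram.mem_trees] at hS
  obtain ⟨h1, -, h3, h4⟩ := hS
  have heS : e ∈ S := h1 (Finset.mem_insert_self e B)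
  have hB : B ⊆ S.erase e := fun x hx => Finset.mem_erase.2
    ⟨fun h => he (h ▸ hx), h1 (Finset.mem_insert_of_mem hx)⟩
  have h5 : comps D.g (S.erase e) = 1 := by
    rw [← comps_insert_of_conn D.g (hc.mono hB), Finset.insert_erase heS]
    exact h3
  have e1 := D.euler S
  have e2 := D.euler (S.erase e)
  have h6 : (S.erase e).card + 1 = S.card := Finset.card_erase_add_one heS
  have := D.nonemptyF
  have h7 := comps_pos D.h (S.erase e)ᶜ
  omega

end Pool.Agent.Lib.TDisc
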