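import Pool.Agent.Lib.TDisc.Base

/-!
# Discharging: two components of small degree near each other
-/

set_option autoImplicit false

namespace Pool.Agent.Lib.TDisc

open Pool.Agent.Lib.TDen

/-- two adjacent components of degree three -/
def ConfB {V E : Type} (g : E → V × V) (B R : Finset E) : Prop :=
  ∃ (c c' : Comp g B) (e : E), c ≠ c' ∧ degR g B R c = 3 ∧ degR g B R c' = 3 ∧ e ∈ R ∧
    Touch g B c e ∧ Touch g B c' e

/-- a component of degree three on one side and one of degree at most four on the other side with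
a common edge -/
def ConfD {V F E : Type} (g : E → V × V) (h : E → F × F) (B A R : Finset E) : Prop :=
  ∃ (c : Comp g B) (f : Comp h A) (e : E), degR g B R c = 3 ∧ degR h A R f ≤ 4 ∧ e ∈ R ∧
    Touch g B c e ∧ Touch h A f e

/-- a weighted sum of degrees -/
private lemma cfg_sum_mul_degR {V E : Type} (g : E → V × V) (B R : Finset E)
    [Fintype (Comp g B)] (w : Comp g B → ℕ) :
    ∑ c : Comp g B, w c * degR g B R c
      = ∑ e ∈ R, (w (Quot.mk (Rel g B) (g e).1) + w (Quot.mk (Rel g B) (g e).2)) := by
  classical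
  unfold degR
  simp_rw [Finset.mul_sum]
  rw [Finset.sum_comm]
  refine Finset.sum_congr rfl fun e _ => ?_
  simp_rw [mul_add]
  rw [Finset.sum_add_distrib]
  simp

/-- no component of degree three near one of degree at most four of the other side -/
private lemma cfg_half {V F E : Type} (g : E → V × V) (h : E → F × F) (B A R : Finset E)
    [Fintype (Comp g B)] [Fintype (Comp h A)] (hg : NoLoop g B R)
    (hB : ¬ ConfB g B R) (hD : ¬ ConfD g h B A R) :
    ∑ c : Comp g B, (if degR g B R c = 3 then 1 else 0)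
      ≤ ∑ f : Comp h A, (if 5 ≤ degR h A R f then degR h A R f - 4 else 0) := by
  classical
  have e1 := cfg_sum_mul_degR g B R (fun c => if degR g B R c = 3 then 1 else 0)
  have e2 := cfg_sum_mul_degR h A R (fun f => if 5 ≤ degR h A R f then 1 else 0)
  have e3 : ∑ c : Comp g B, (if degR g B R c = 3 then 1 else 0) * degR g B R c
      = 3 * ∑ c : Comp g B, (if degR g B R c = 3 then 1 else 0) := by
    rw [Finset.mul_sum]
    refine Finset.sum_congr rfl fun c _ => ?_
    split_ifs with hc
    · rw [hc, mul_comm]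
    · simp
  have e4 : ∑ f : Comp h A, (if 5 ≤ degR h A R f then 1 else 0) * degR h A R f
      ≤ 6 * ∑ f : Comp h A, (if 5 ≤ degR h A R f then degR h A R f - 4 else 0) := by
    rw [Finset.mul_sum]
    refine Finset.sum_le_sum fun f _ => ?_
    split_ifs with hc
    · omega
    · simp
  have key : 2 * ∑ e ∈ R, ((if degR g B R (Quot.mk (Rel g B) (g e).1) = 3 then 1 else 0)
        + (if degR g B R (Quot.mk (Rel g B) (g e).2) = 3 then 1 else 0))
      ≤ ∑ e ∈ R, ((if 5 ≤ degR h A R (Quot.mk (Rel h A) (h e).1) then 1 else 0)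
        + (if 5 ≤ degR h A R (Quot.mk (Rel h A) (h e).2) then 1 else 0)) := by
    rw [Finset.mul_sum]
    refine Finset.sum_le_sum fun e he => ?_
    have hne : (Quot.mk (Rel g B) (g e).1 : Comp g B) ≠ Quot.mk (Rel g B) (g e).2 := hg e he
    by_cases h1 : degR g B R (Quot.mk (Rel g B) (g e).1) = 3
    · have h2 : ¬ degR g B R (Quot.mk (Rel g B) (g e).2) = 3 := fun h2 =>
        hB ⟨_, _, e, hne, h1, h2, he, Or.inl rfl, Or.inr rfl⟩
      have h3 : 5 ≤ degR h A R (Quot.mk (Rel h A) (h e).1) := by
        by_contra h3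
        exact hD ⟨_, _, e, h1, by omega, he, Or.inl rfl, Or.inl rfl⟩
      have h4 : 5 ≤ degR h A R (Quot.mk (Rel h A) (h e).2) := by
        by_contra h4
        exact hD ⟨_, _, e, h1, by omega, he, Or.inl rfl, Or.inr rfl⟩
      rw [if_pos h1, if_neg h2, if_pos h3, if_pos h4]
      norm_num
    · by_cases h2 : degR g B R (Quot.mk (Rel g B) (g e).2) = 3
      · have h3 : 5 ≤ degR h A R (Quot.mk (Rel h A) (h e).1) := by
          by_contra h3
          exact hD ⟨_, _, e, h2, by omega, he, Or.inr rfl, Or.inl rfl⟩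
        have h4 : 5 ≤ degR h A R (Quot.mk (Rel h A) (h e).2) := by
          by_contra h4
          exact hD ⟨_, _, e, h2, by omega, he, Or.inr rfl, Or.inr rfl⟩
        rw [if_neg h1, if_pos h2, if_pos h3, if_pos h4]
        norm_num
      · rw [if_neg h1, if_neg h2]
        simp
  rw [e3] at e1
  rw [← e1, ← e2] at key
  omega

/-- the sum of the charges of one side -/
private lemma cfg_balance {V E : Type} (g : E → V × V) (B R : Finset E) [Fintype (Comp g B)]
    (h3 : ∀ c : Comp g B, 3 ≤ degR g B R c) :
    2 * R.card + ∑ c : Comp g B, (if degR g B R c = 3 then 1 else 0)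
      = 4 * comps g B + ∑ c : Comp g B, (if 5 ≤ degR g B R c then degR g B R c - 4 else 0) := by
  classical
  rw [← sum_degR g B R, ← Finset.sum_add_distrib]
  unfold comps
  rw [Nat.card_eq_fintype_card, mul_comm 4, ← smul_eq_mul (Fintype.card (Comp g B)) 4,
    ← Finset.card_univ, ← Finset.sum_const, ← Finset.sum_add_distrib]
  refine Finset.sum_congr rfl fun c _ => ?_
  have := h3 c
  split_ifs <;> omega

/-- PROOF (discharging). `#Comp g B + #Comp h A = |R| + 2` (as in `exists_degR_le_three`) and the
degrees on each side sum to `2 |R|` (`sum_degR`), so `∑ (4 - deg) = 8` over all components of both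
sides. Suppose none of the four. Let `p` be the number of components of degree 3 of `g`. Each has
3 edges (no loops), no edge touches two of them (no `ConfB`), each of these `3p` edges has two
sides, in components of `h` of degree at least 5 (no `ConfD`): so
`6 p ≤ ∑_(deg f ≥ 5) deg f ≤ ∑_(deg f ≥ 5) 6 (deg f - 4)`. The same with the sides exchanged. Hence
`8 = ∑ (4 - deg) ≤ p + q - ∑_(deg f ≥ 5) (deg f - 4) - ∑_(deg c ≥ 5) (deg c - 4) ≤ 0`. -/
theorem exists_config (D : Diagram) {A B : Finset D.E} (hG : D.Good A B)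
    (hg : NoLoop D.g B (D.rest A B)) (hh : NoLoop D.h A (D.rest A B))
    (dg : ∀ c : Comp D.g B, 3 ≤ degR D.g B (D.rest A B) c)
    (dh : ∀ f : Comp D.h A, 3 ≤ degR D.h A (D.rest A B) f) :
    ConfB D.g B (D.rest A B) ∨ ConfB D.h A (D.rest A B) ∨
    ConfD D.g D.h B A (D.rest A B) ∨ ConfD D.h D.g A B (D.rest A B) := by
  classical
  by_contra hcon
  rw [not_or, not_or, not_or] at hcon
  obtain ⟨n1, n2, n3, n4⟩ := hcon
  have i1 : Fintype (Comp D.g B) := Fintype.ofFinite _
  have i2 : Fintype (Comp D.h A) := Fintype.ofFinite _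
  have a1 := cfg_half D.g D.h B A (D.rest A B) hg n1 n3
  have a2 := cfg_half D.h D.g A B (D.rest A B) hh n2 n4
  have b1 := cfg_balance D.g B (D.rest A B) dg
  have b2 := cfg_balance D.h A (D.rest A B) dh
  obtain ⟨hd, hgA, hhB⟩ := hG
  have e3 := D.euler B
  have e4 := D.euler Aᶜ
  rw [compl_compl, hgA] at e4
  rw [hhB] at e3
  have e5 : (Aᶜ).card = (D.rest A B).card + B.card := by
    have hsub : B ⊆ Aᶜ := by
      intro x hx
      rw [Finset.mem_compl]
      exact fun hA => (Finset.disjoint_left.1 hd hA) hx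
    have : D.rest A B = Aᶜ \ B := by
      unfold Diagram.rest
      ext x
      simp
    rw [this, Finset.card_sdiff_add_card_eq_card hsub]
  omega

end Pool.Agent.Lib.TDisc
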