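import Pool.Agent.Lib.TDisc.FinD
import Pool.Agent.Lib.TDen.NumD

/-!
# Q1 for at most 174 crossings
-/

set_option autoImplicit false

namespace Pool.Agent.Lib.TDisc

open Real Pool.Agent.Lib.MP_20e20b_gt Pool.Agent.Lib.TDen

/-- `2^139 ≤ (8/5)^205` -/
private lemma log_five_eighths : Real.log (5 / 8) ≤ -0.46998 := by
  have h1 : (2 : ℝ) ^ 139 ≤ (8 / 5 : ℝ) ^ 205 := by norm_num
  have h2 : Real.log (2 ^ 139) ≤ Real.log ((8 / 5 : ℝ) ^ 205) :=
    Real.log_le_log (by positivity) h1
  rw [Real.log_pow, Real.log_pow] at h2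
  push_cast at h2
  have h3 := Real.log_two_gt_d9
  have h4 : Real.log (5 / 8) = -Real.log (8 / 5) := by
    rw [← Real.log_inv]; norm_num
  rw [h4]
  norm_num at h2 h3 ⊢
  linarith

/-- Q1 for at most 174 crossings: as `density_132`, with `coefSum_leD` -/
theorem density_174 (D : Diagram) (h1 : 1 ≤ D.crossings) (h2 : D.crossings ≤ 174) :
    2 * π * Real.log D.mu / D.crossings ≤ vOct := by
  by_cases h30 : D.crossings ≤ 30
  · exact density_thirty D h1 h30
  have hv := vOct_gt'
  have hπ := Real.pi_lt_d6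
  have hπ' := Real.pi_gt_d6
  have hπ0 := Real.pi_pos
  have hN : (0 : ℝ) < (D.crossings : ℝ) := by exact_mod_cast h1
  rcases (mu_nonneg D).eq_or_lt with h | h
  · rw [← h, Real.log_zero, mul_zero, zero_div]
    linarith
  rw [div_le_iff₀ hN]
  have hvN : (3.6637 : ℝ) * (D.crossings : ℝ) ≤ vOct * (D.crossings : ℝ) :=
    mul_le_mul_of_nonneg_right hv.le hN.le
  refine le_trans ?_ hvN
  have hN31 : (31 : ℝ) ≤ (D.crossings : ℝ) := by exact_mod_cast (by omega : 31 ≤ D.crossings)
  have hN174 : (D.crossings : ℝ) ≤ 174 := by exact_mod_cast h2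
  have two_pi : ∀ {x B : ℝ}, 0 ≤ B → x ≤ B → 2 * π * x ≤ 6.283186 * B := by
    intro x B hB h
    calc 2 * π * x ≤ 2 * π * B := mul_le_mul_of_nonneg_left h (by positivity)
      _ ≤ 6.283186 * B := mul_le_mul_of_nonneg_right (by linarith) hB
  by_cases hs : spanA D.bracket ≤ 24
  · have h3 : D.mu ≤ 20 * √2 ^ D.crossings := (mu_le_coefSum D).trans (D.coefSum_le_of_spanA hs)
    have h4 : Real.log D.mu ≤ Real.log 20 + D.crossings * (Real.log 2 / 2) := by
      rw [← Real.log_sqrt (by norm_num), ← Real.log_pow, ← Real.log_mul (by norm_num)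
        (by positivity)]
      exact Real.log_le_log h h3
    have h5 : Real.log 20 ≤ 5 * Real.log 2 := by
      have : Real.log 20 ≤ Real.log ((2 : ℝ) ^ 5) := Real.log_le_log (by norm_num) (by norm_num)
      rw [Real.log_pow] at this
      push_cast at this
      exact this
    have h6 := Real.log_two_lt_d9
    have h7 : (D.crossings : ℝ) * (Real.log 2 / 2) ≤ D.crossings * 0.3466 :=
      mul_le_mul_of_nonneg_left (by linarith) hN.le
    have h8 := two_pi (B := 3.466 + D.crossings * 0.3466) (x := Real.log D.mu)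
      (by positivity) (by linarith)
    linarith
  · have h3 : D.mu ≤ (coefSum D.bracket : ℝ) / 8 := D.mu_le_eighth hs
    obtain ⟨m, hm⟩ : ∃ m, D.crossings = m + 4 := ⟨D.crossings - 4, by omega⟩
    have h4 := coefSum_leD D (by omega)
    rw [hm, Nat.add_sub_cancel] at h4
    have hδ : (0 : ℝ) < 4553 / 2500 := by norm_num
    have h5 : D.mu ≤ 5 / 8 * (4553 / 2500 : ℝ) ^ m := by linarith
    have h6 : Real.log D.mu ≤ Real.log (5 / 8) + m * Real.log (4553 / 2500) := by
      rw [← Real.log_pow, ← Real.log_mul (by norm_num) (pow_pos hδ m).ne']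
      exact Real.log_le_log h h5
    have h7 := two_pi_log_deltaD_lt
    have h8 : 2 * π * Real.log (5 / 8) ≤ 6.283184 * (-0.46998) := by
      have h81 : 2 * π * Real.log (5 / 8) ≤ 2 * π * (-0.46998) :=
        mul_le_mul_of_nonneg_left log_five_eighths (by positivity)
      refine h81.trans ?_
      exact mul_le_mul_of_nonpos_right (by linarith) (by norm_num)
    have hmN : (D.crossings : ℝ) = (m : ℝ) + 4 := by
      rw [hm]; push_cast; ring
    have h9 : (m : ℝ) * (2 * π * Real.log (4553 / 2500)) ≤ m * 3.767 :=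
      mul_le_mul_of_nonneg_left h7.le (Nat.cast_nonneg m)
    have h10 : 2 * π * Real.log D.mu ≤
        2 * π * (Real.log (5 / 8) + m * Real.log (4553 / 2500)) :=
      mul_le_mul_of_nonneg_left h6 (by positivity)
    have h11 : 2 * π * (Real.log (5 / 8) + m * Real.log (4553 / 2500)) =
        2 * π * Real.log (5 / 8) + m * (2 * π * Real.log (4553 / 2500)) := by ring
    have hm170 : (m : ℝ) ≤ 170 := by linarith
    rw [h11] at h10
    rw [hmN]
    norm_num at h8 h9 h10 ⊢
    linarith

end Pool.Agent.Lib.TDisc
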