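import Pool.Agent.Lib.TDisc.FinD
import Pool.Agent.Lib.TDen.FinAlt

/-!
# Q1 for at most 415 crossings and full span

As `density_alternating_322` (file `TDen/FinAlt.lean`), with `coefSum_leD`.
-/

set_option autoImplicit false

namespace Pool.Agent.Lib.TDisc

open Real Pool.Agent.Lib.MP_20e20b_gt Pool.Agent.Lib.TDen

set_option exponentiation.threshold 1000 in
/-- `δ^459 ≤ 2^397` -/
private lemma log_deltaD_le : Real.log (4553 / 2500) ≤ 0.59952 := by
  have h1 : Real.log ((4553 / 2500 : ℝ) ^ 459) ≤ Real.log ((2 : ℝ) ^ 397) := by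
    apply Real.log_le_log (by positivity)
    norm_num
  rw [Real.log_pow, Real.log_pow] at h1
  push_cast at h1
  have h2 := Real.log_two_lt_d9
  linarith

/-- `2^87 ≤ 416^10` -/
private lemma log_416_ge : 6.03037 ≤ Real.log 416 := by
  have h1 : (2 : ℝ) ^ 87 ≤ (416 : ℝ) ^ 10 := by norm_num
  have h2 : Real.log ((2 : ℝ) ^ 87) ≤ Real.log ((416 : ℝ) ^ 10) :=
    Real.log_le_log (by positivity) h1
  rw [Real.log_pow, Real.log_pow] at h2
  push_cast at h2
  have h3 := Real.log_two_gt_d9
  norm_num at h2 h3 ⊢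
  linarith

private lemma numAlt_key {x : ℝ} (h4 : 300 ≤ x) (h2 : x ≤ 415) :
    0.0164242 * x - 0.7886 ≤ Real.log (x + 1) := by
  have h5 := Real.one_sub_inv_le_log_of_pos (x := (x + 1) / 416) (by positivity)
  rw [Real.log_div (by positivity) (by norm_num), inv_div] at h5
  have h6 := log_416_ge
  have hx : 0 < x + 1 := by linarith
  have h7 : 416 / (x + 1) ≤ 6.03037 + 1 + 0.7886 - 0.0164242 * x := by
    rw [div_le_iff₀ hx]
    nlinarith [mul_nonneg (sub_nonneg.2 h4) (sub_nonneg.2 h2)]
  linarith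

/-- Q1 for at most 415 crossings if the span of the Jones polynomial is at least the number
of crossings (reduced alternating diagrams) -/
theorem density_alternating_415 (D : Diagram) (h1 : 1 ≤ D.crossings) (h2 : D.crossings ≤ 415)
    (h3 : 4 * (D.crossings : ℤ) ≤ spanA D.bracket) :
    2 * π * Real.log D.mu / D.crossings ≤ vOct := by
  by_cases h300 : D.crossings ≤ 300
  · exact density_alternating D h1 h300 h3
  have hN : (0 : ℝ) < (D.crossings : ℝ) := by exact_mod_cast h1
  have h3' : 4 * (D.crossings : ℝ) ≤ (spanA D.bracket : ℝ) := by exact_mod_cast h3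
  have hv := vOct_gt'
  have hπ := Real.pi_lt_d6
  have hπ0 := Real.pi_pos
  rcases (mu_nonneg D).eq_or_lt with h | h
  · rw [← h, Real.log_zero, mul_zero, zero_div]
    linarith
  have hs : (0 : ℝ) < (coefSum D.bracket : ℝ) := h.trans_le (mu_le_coefSum D)
  have hmu : D.mu ≤ (coefSum D.bracket : ℝ) / ((D.crossings : ℝ) + 1) := by
    unfold Diagram.mu
    exact div_le_div_of_nonneg_left hs.le (by positivity) (by linarith)
  rw [div_le_iff₀ hN]
  have hvN : (3.6637 : ℝ) * (D.crossings : ℝ) ≤ vOct * (D.crossings : ℝ) :=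
    mul_le_mul_of_nonneg_right hv.le hN.le
  refine le_trans ?_ hvN
  obtain ⟨m, hm⟩ : ∃ m, D.crossings = m + 4 := ⟨D.crossings - 4, by omega⟩
  have h4 := coefSum_leD D (by omega)
  have hm' : D.crossings - 4 = m := by omega
  rw [hm'] at h4
  have hδ : (0 : ℝ) < 4553 / 2500 := by norm_num
  have h6 : Real.log D.mu ≤ Real.log 5 + m * Real.log (4553 / 2500)
      - Real.log ((D.crossings : ℝ) + 1) := by
    rw [← Real.log_pow, ← Real.log_mul (by norm_num) (pow_pos hδ m).ne',
      ← Real.log_div (by positivity) (by positivity)]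
    refine Real.log_le_log h (hmu.trans ?_)
    exact div_le_div_of_nonneg_right h4 (by positivity)
  have h7 := log_deltaD_le
  have h8 := log_five_le
  have hm0 : (0 : ℝ) ≤ (m : ℝ) := Nat.cast_nonneg m
  have hmN : (m : ℝ) = (D.crossings : ℝ) - 4 := by
    rw [hm]; push_cast; ring
  have h9 : (m : ℝ) * Real.log (4553 / 2500) ≤ m * 0.59952 :=
    mul_le_mul_of_nonneg_left h7 hm0
  have hN301 : (301 : ℝ) ≤ (D.crossings : ℝ) := by
    exact_mod_cast (by omega : 301 ≤ D.crossings)
  have hN415 : (D.crossings : ℝ) ≤ 415 := by exact_mod_cast h2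
  have h10 := numAlt_key (x := (D.crossings : ℝ)) (by linarith) hN415
  have h11 : Real.log D.mu ≤ 1.60946 + ((D.crossings : ℝ) - 4) * 0.59952
      - (0.0164242 * D.crossings - 0.7886) := by
    rw [hmN] at h9 h6
    linarith
  have h12 : 0 ≤ 1.60946 + ((D.crossings : ℝ) - 4) * 0.59952
      - (0.0164242 * D.crossings - 0.7886) := by linarith
  calc 2 * π * Real.log D.mu ≤ 2 * π * (1.60946 + ((D.crossings : ℝ) - 4) * 0.59952
      - (0.0164242 * D.crossings - 0.7886)) := mul_le_mul_of_nonneg_left h11 (by positivity)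
    _ ≤ 6.283186 * (1.60946 + ((D.crossings : ℝ) - 4) * 0.59952
      - (0.0164242 * D.crossings - 0.7886)) := mul_le_mul_of_nonneg_right (by linarith) h12
    _ ≤ 3.6637 * D.crossings := by linarith

end Pool.Agent.Lib.TDisc
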