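import Pool.Agent.Lib.TDisc.RecD
import Pool.Agent.Lib.TDen.Fin132

/-!
# The density bound with the constant 1.8212
-/

set_option autoImplicit false

namespace Pool.Agent.Lib.TDisc

open Real Pool.Agent.Lib.MP_20e20b_gt Pool.Agent.Lib.TDen

/-- the sum of the absolute values of the coefficients -/
theorem coefSum_leD (D : Diagram) (hN : 4 ≤ D.crossings) :
    (coefSum D.bracket : ℝ) ≤ 5 * (4553 / 2500 : ℝ) ^ (D.crossings - 4) := by
  have h1 : (coefSum D.bracket : ℝ) ≤ (D.N ∅ ∅ : ℝ) := by exact_mod_cast D.coefSum_bracket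
  refine (h1.trans (N_leD D ∅ ∅ (Finset.disjoint_empty_left _) D.crossings hN
    (fin_rest D))).trans ?_
  obtain ⟨m, hm⟩ : ∃ m, D.crossings = m + 4 := ⟨D.crossings - 4, by omega⟩
  rw [hm, Nat.add_sub_cancel, xx, pow_add, ← mul_assoc, mul_div_assoc, div_self (by positivity),
    mul_one]

private lemma coefSum_three (D : Diagram) (hN : D.crossings = 3) :
    (coefSum D.bracket : ℝ) ≤ 3 := by
  obtain ⟨k, hk⟩ := D.N_le_choose ∅ ∅
  rw [fin_rest, hN] at hk
  have h1 := D.coefSum_bracket.trans (hk.trans (Nat.choose_le_middle k 3))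
  have h2 : Nat.choose 3 (3 / 2) = 3 := by decide
  rw [h2] at h1
  exact_mod_cast h1

/-- the density bound -/
theorem density_allD (D : Diagram) (h1 : 1 ≤ D.crossings) :
    2 * π * Real.log D.mu / D.crossings < 3.767 := by
  have hN : (0 : ℝ) < (D.crossings : ℝ) := by exact_mod_cast h1
  have hδ : 0 < Real.log (4553 / 2500) := Real.log_pos (by norm_num)
  have key : D.mu ≤ (4553 / 2500 : ℝ) ^ D.crossings := by
    refine (mu_le_coefSum D).trans ?_
    by_cases h3 : D.crossings ≤ 2
    · have h4 : (coefSum D.bracket : ℝ) ≤ (D.crossings : ℝ) := by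
        exact_mod_cast coefSum_small D h1 h3
      refine h4.trans ?_
      have h5 : D.crossings = 1 ∨ D.crossings = 2 := by omega
      rcases h5 with h | h
      · rw [h]; norm_num
      · rw [h]; norm_num
    · by_cases h4 : D.crossings = 3
      · refine (coefSum_three D h4).trans ?_
        rw [h4]
        norm_num
      · refine (coefSum_leD D (by omega)).trans ?_
        obtain ⟨m, hm⟩ : ∃ m, D.crossings = m + 4 := ⟨D.crossings - 4, by omega⟩
        rw [hm, Nat.add_sub_cancel, pow_add, mul_comm]
        exact mul_le_mul_of_nonneg_left (by norm_num) (by positivity)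
  have hlog : Real.log D.mu ≤ D.crossings * Real.log (4553 / 2500) := by
    rcases (mu_nonneg D).eq_or_lt with h | h
    · rw [← h, Real.log_zero]; positivity
    · rw [← Real.log_pow]
      exact Real.log_le_log h key
  refine lt_of_le_of_lt ?_ two_pi_log_deltaD_lt
  rw [div_le_iff₀ hN]
  have := mul_le_mul_of_nonneg_left hlog (by positivity : (0 : ℝ) ≤ 2 * π)
  linarith

end Pool.Agent.Lib.TDisc
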