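import Pool.Agent.Lib.TDisc.Fin163
import Pool.Agent.Lib.TDen.FinAlt

/-!
# Q1 for few crossings, in terms of the span of the Jones polynomial
-/

set_option autoImplicit false

namespace Pool.Agent.Lib.TDisc

open Real Pool.Agent.Lib.MP_20e20b_gt Pool.Agent.Lib.TDen

set_option exponentiation.threshold 1000 in
/-- `δ^607 ≤ 2^525` -/
private lemma log_deltaD_le' : Real.log (4553 / 2500) ≤ 0.5995096 := by
  have h1 : Real.log ((4553 / 2500 : ℝ) ^ 607) ≤ Real.log ((2 : ℝ) ^ 525) := by
    apply Real.log_le_log (by positivity)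
    norm_num
  rw [Real.log_pow, Real.log_pow] at h1
  push_cast at h1
  have h2 := Real.log_two_lt_d9
  linarith

/-- Q1 for at most 174 crossings, and for at most `48 + 60.9 log (d + 1)` crossings, `d` the span
of the Jones polynomial -/
theorem density_span (D : Diagram) (h1 : 1 ≤ D.crossings)
    (h2 : D.crossings ≤ 174 ∨
      (D.crossings : ℝ) ≤ 48 + 60.9 * Real.log ((spanA D.bracket : ℝ) / 4 + 1)) :
    2 * π * Real.log D.mu / D.crossings ≤ vOct := by
  by_cases h174 : D.crossings ≤ 174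
  · exact density_174 D h1 h174
  have h2' : (D.crossings : ℝ) ≤ 48 + 60.9 * Real.log ((spanA D.bracket : ℝ) / 4 + 1) :=
    h2.resolve_left h174
  have hN : (0 : ℝ) < (D.crossings : ℝ) := by exact_mod_cast h1
  have hN175 : (175 : ℝ) ≤ (D.crossings : ℝ) := by
    exact_mod_cast (by omega : 175 ≤ D.crossings)
  have hv := vOct_gt'
  have hπ := Real.pi_lt_d6
  have hπ0 := Real.pi_pos
  rcases (mu_nonneg D).eq_or_lt with h | h
  · rw [← h, Real.log_zero, mul_zero, zero_div]
    linarith
  have hs : (0 : ℝ) < (coefSum D.bracket : ℝ) := h.trans_le (mu_le_coefSum D)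
  have hden : (0 : ℝ) < (spanA D.bracket : ℝ) / 4 + 1 := by
    by_contra hcon
    push Not at hcon
    have h0 : D.mu ≤ 0 := by
      unfold Diagram.mu
      exact div_nonpos_of_nonneg_of_nonpos hs.le hcon
    linarith
  rw [div_le_iff₀ hN]
  have hvN : (3.6637 : ℝ) * (D.crossings : ℝ) ≤ vOct * (D.crossings : ℝ) :=
    mul_le_mul_of_nonneg_right hv.le hN.le
  refine le_trans ?_ hvN
  obtain ⟨m, hm⟩ : ∃ m, D.crossings = m + 4 := ⟨D.crossings - 4, by omega⟩
  have h4 := coefSum_leD D (by omega)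
  have hm' : D.crossings - 4 = m := by omega
  rw [hm'] at h4
  have hδ : (0 : ℝ) < 4553 / 2500 := by norm_num
  have h6 : Real.log D.mu ≤ Real.log 5 + m * Real.log (4553 / 2500)
      - Real.log ((spanA D.bracket : ℝ) / 4 + 1) := by
    rw [← Real.log_pow, ← Real.log_mul (by norm_num) (pow_pos hδ m).ne',
      ← Real.log_div (by positivity) hden.ne']
    refine Real.log_le_log h ?_
    unfold Diagram.mu
    exact div_le_div_of_nonneg_right h4 hden.le
  have h7 := log_deltaD_le'
  have h8 := log_five_le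
  have hm0 : (0 : ℝ) ≤ (m : ℝ) := Nat.cast_nonneg m
  have hmN : (m : ℝ) = (D.crossings : ℝ) - 4 := by
    rw [hm]; push_cast; ring
  have h9 : (m : ℝ) * Real.log (4553 / 2500) ≤ m * 0.5995096 :=
    mul_le_mul_of_nonneg_left h7 hm0
  have h11 : Real.log D.mu ≤ 1.60946 + ((D.crossings : ℝ) - 4) * 0.5995096
      - (D.crossings - 48) / 60.9 := by
    have h10 : ((D.crossings : ℝ) - 48) / 60.9 ≤
        Real.log ((spanA D.bracket : ℝ) / 4 + 1) := by
      rw [div_le_iff₀ (by norm_num)]
      linarith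
    rw [hmN] at h9 h6
    linarith
  have h12 : 0 ≤ 1.60946 + ((D.crossings : ℝ) - 4) * 0.5995096
      - (D.crossings - 48) / 60.9 := by
    have h13 : ((D.crossings : ℝ) - 48) / 60.9 ≤ 0.0165 * (D.crossings - 48) := by
      rw [div_le_iff₀ (by norm_num)]
      linarith
    linarith
  have h14 : 0.016420 * ((D.crossings : ℝ) - 48) ≤ ((D.crossings : ℝ) - 48) / 60.9 := by
    rw [le_div_iff₀ (by norm_num)]
    linarith
  calc 2 * π * Real.log D.mu ≤ 2 * π * (1.60946 + ((D.crossings : ℝ) - 4) * 0.5995096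
      - (D.crossings - 48) / 60.9) := mul_le_mul_of_nonneg_left h11 (by positivity)
    _ ≤ 6.283186 * (1.60946 + ((D.crossings : ℝ) - 4) * 0.5995096
      - (D.crossings - 48) / 60.9) := mul_le_mul_of_nonneg_right (by linarith) h12
    _ ≤ 3.6637 * D.crossings := by linarith

end Pool.Agent.Lib.TDisc
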