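import Mathlib

/-!
# The optimisation for a vertex of degree three on a face of degree four
-/

set_option autoImplicit false

namespace Pool.Agent.Lib.TDisc

/-- the normalised form -/
private lemma optD_one {t s r : ℝ} (hs : 0 ≤ s)
    (hk : 0.93657 ≤ t) (h5 : t ≤ 1) (hs2 : s ≤ 4.492987 - 2 * t) (hrK : 1.547513 - t ≤ r)
    (h6 : 12 * t * r ≤ s ^ 2) : False := by
  have h7 : 12 * t * (1.547513 - t) ≤ 12 * t * r :=
    mul_le_mul_of_nonneg_left hrK (by linarith)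
  have h8 : s ^ 2 ≤ (4.492987 - 2 * t) ^ 2 := pow_le_pow_left₀ hs hs2 2
  nlinarith [mul_nonneg (sub_nonneg.2 hk) (sub_nonneg.2 h5)]

/-- PROOF. Let `δ = 4553/2500`, `c = 1` (scale), `p₀ = 1/δ + 1/δ^2`, `K = δ^3 - p₀ - 2δ`. Suppose
`3t + p + q + w + r > δ^3`. Subtract `h1`: `2t + p > δ^3 - δ^2`, so `t > κ = (δ^3 - δ^2 - p₀)/2`
(`= 0.93657..`). By `h2`, `h3`, `h4`: `p + q + w ≤ p₀ + 2 (δ - t)`, so `r > K - t` (`K = 1.5475..`)
and `12 t (K - t) < 12 t r ≤ (p₀ + 2δ - 2t)^2`. But `φ(t) = 12 t (K - t) - (p₀ + 2δ - 2t)^2` is a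
concave quadratic with `φ(κ) = 0.0027.. > 0`, `φ(1) > 0`, and `κ < t ≤ 1`: contradiction. -/
theorem optD {t p q w r c : ℝ} (hc : 0 < c) (ht : 0 ≤ t) (hp : 0 ≤ p) (hq : 0 ≤ q)
    (hw : 0 ≤ w) (hr : 0 ≤ r)
    (h1 : t + q + w + r ≤ c * (4553 / 2500) ^ 2)
    (h2 : t + q ≤ c * (4553 / 2500)) (h3 : t + w ≤ c * (4553 / 2500))
    (h4 : p ≤ c * (2500 / 4553) + c * (2500 / 4553) ^ 2) (h5 : t ≤ c)
    (h6 : 12 * t * r ≤ (p + q + w) ^ 2) :
    3 * t + p + q + w + r ≤ c * (4553 / 2500) ^ 3 := by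
  by_contra hcon
  push Not at hcon
  have hp0 : p ≤ c * 0.850587 := by
    have : c * (2500 / 4553) + c * (2500 / 4553) ^ 2 ≤ c * 0.850587 := by
      have : c * ((2500 / 4553) + (2500 / 4553) ^ 2 : ℝ) ≤ c * 0.850587 :=
        mul_le_mul_of_nonneg_left (by norm_num) hc.le
      linarith
    linarith
  have e3 : (4553 / 2500 : ℝ) ^ 3 = 94382820377 / 15625000000 := by norm_num
  have e2 : (4553 / 2500 : ℝ) ^ 2 = 20729809 / 6250000 := by norm_num
  rw [e3] at hcon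
  rw [e2] at h1
  refine optD_one (t := t / c) (s := (p + q + w) / c) (r := r / c)
    (by positivity) ?_ ?_ ?_ ?_ ?_
  · rw [le_div_iff₀ hc]
    linarith
  · rw [div_le_one hc]
    exact h5
  · rw [div_le_iff₀ hc]
    have : (4.492987 - 2 * (t / c)) * c = 4.492987 * c - 2 * t := by
      field_simp
    rw [this]
    linarith
  · rw [le_div_iff₀ hc]
    have : (1.547513 - t / c) * c = 1.547513 * c - t := by
      field_simp
    rw [this]
    linarith
  · have h7 : 12 * (t / c) * (r / c) = 12 * t * r / c ^ 2 := by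
      field_simp
    have h8 : ((p + q + w) / c) ^ 2 = (p + q + w) ^ 2 / c ^ 2 := by
      rw [div_pow]
    rw [h7, h8]
    exact div_le_div_of_nonneg_right h6 (by positivity)

end Pool.Agent.Lib.TDisc
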