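import Pool.Agent.Lib.TDisc.Base

/-!
# A star and a face have two common edges
-/

set_option autoImplicit false

namespace Pool.Agent.Lib.TDisc

open Pool.Agent.Lib.TDen

/-- Let `Y` be the edges of the rest that touch the face `f`. The ends of `e ∈ Y` are connected by
`B ∪ (Y \ {e})`. PROOF: with `S = B ∪ Y` and `S' = B ∪ (Y \ {e})` one has `S = insert e S'`,
`S'ᶜ = insert e Sᶜ`, `Sᶜ = A ∪ (rest \ Y)`; no edge of `rest \ Y` touches `f`, so `f` is a
component of `(F, Sᶜ)` too and the sides of `e` are not connected by `Sᶜ` (exactly one of them is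
in `f`, no loops). Euler's formula for `S` and `S'` gives `comps g S = comps g S'`, so the ends of
`e` are connected by `S'` (`comps_insert_of_not_conn`). -/
theorem conn_face (D : Diagram) {A B : Finset D.E} (hAB : Disjoint A B)
    (hh : NoLoop D.h A (D.rest A B)) (f : Comp D.h A) (Y : Finset D.E)
    (hY : ∀ e, e ∈ Y ↔ e ∈ D.rest A B ∧ Touch D.h A f e) {e : D.E} (he : e ∈ Y) :
    Conn D.g (B ∪ Y.erase e) (D.g e).1 (D.g e).2 := by
  classical
  have _ := hAB
  obtain ⟨heR, heT⟩ := (hY e).1 he
  have heAB := mem_rest_iff.1 heR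
  by_contra hcon
  have heS' : e ∉ B ∪ Y.erase e := by
    rw [Finset.mem_union, not_or]
    exact ⟨heAB.2, Finset.notMem_erase e Y⟩
  have hS : insert e (B ∪ Y.erase e) = B ∪ Y := by
    ext x
    rw [Finset.mem_insert, Finset.mem_union, Finset.mem_union, Finset.mem_erase]
    by_cases hx : x = e
    · subst hx
      tauto
    · tauto
  have hSc : (B ∪ Y.erase e)ᶜ = insert e (B ∪ Y)ᶜ := by
    ext x
    rw [Finset.mem_insert, Finset.mem_compl, Finset.mem_compl, Finset.mem_union,
      Finset.mem_union, Finset.mem_erase]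
    by_cases hx : x = e
    · subst hx
      tauto
    · tauto
  have h1 := comps_insert_of_not_conn D.g hcon
  rw [hS] at h1
  have h2 := D.euler (B ∪ Y)
  have h3 := D.euler (B ∪ Y.erase e)
  have hc : (B ∪ Y).card = (B ∪ Y.erase e).card + 1 := by
    rw [← hS, Finset.card_insert_of_notMem heS']
  have h4 : Conn D.h (B ∪ Y)ᶜ (D.h e).1 (D.h e).2 := by
    by_contra h5
    have h6 := comps_insert_of_not_conn D.h h5
    rw [← hSc] at h6
    omega
  have key : ((Quot.mk (Rel D.h A) (D.h e).1 : Comp D.h A) = f ↔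
      (Quot.mk (Rel D.h A) (D.h e).2 : Comp D.h A) = f) :=
    h4.rec_on (fun u v => ((Quot.mk (Rel D.h A) u : Comp D.h A) = f ↔
      (Quot.mk (Rel D.h A) v : Comp D.h A) = f)) ⟨fun _ => Iff.rfl, Iff.symm, Iff.trans⟩ (by
      intro x hx
      rw [Finset.mem_compl, Finset.mem_union, not_or] at hx
      by_cases hxA : x ∈ A
      · have h7 : (Quot.mk (Rel D.h A) (D.h x).1 : Comp D.h A) = Quot.mk (Rel D.h A) (D.h x).2 :=
          Conn.edge hxA
        rw [h7]
      · have hxT : ¬ Touch D.h A f x := fun ht =>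
          hx.2 ((hY x).2 ⟨mem_rest_iff.2 ⟨hxA, hx.1⟩, ht⟩)
        unfold Touch at hxT
        rw [not_or] at hxT
        exact ⟨fun h => absurd h hxT.1, fun h => absurd h hxT.2⟩)
  have hne := hh e heR
  rcases heT with h5 | h5
  · exact hne (h5.trans (key.1 h5).symm)
  · exact hne ((key.2 h5).trans h5.symm)

end Pool.Agent.Lib.TDisc
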