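import Pool.Agent.Lib.TDisc.Orth

/-!
# A star and a face of degree at most four have exactly two common edges
-/

set_option autoImplicit false

namespace Pool.Agent.Lib.TDisc

open Pool.Agent.Lib.TDen

/-- a component that is touched by no edge of `Z` is isolated in `B ∪ Z` -/
private lemma iso_of_not_touch {V E : Type} [DecidableEq E] (g : E → V × V) {B Z : Finset E}
    (c₀ : Comp g B) (hZ : ∀ e ∈ Z, ¬ Touch g B c₀ e) {u v : V} (h : Conn g (B ∪ Z) u v) :
    (Quot.mk (Rel g B) u : Comp g B) = c₀ ↔ (Quot.mk (Rel g B) v : Comp g B) = c₀ := by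
  refine h.rec_on (fun u v => (Quot.mk (Rel g B) u : Comp g B) = c₀ ↔
    (Quot.mk (Rel g B) v : Comp g B) = c₀)
    ⟨fun _ => Iff.rfl, fun h => h.symm, fun h h' => h.trans h'⟩ ?_
  intro e he
  rcases Finset.mem_union.1 he with h1 | h1
  · have h2 : (Quot.mk (Rel g B) (g e).1 : Comp g B) = Quot.mk (Rel g B) (g e).2 := Conn.edge h1
    rw [h2]
  · have h2 := hZ e h1
    unfold Touch at h2
    tauto

/-- the edges that touch a component -/
private lemma card_touch_le {V E : Type} (g : E → V × V) (B R : Finset E) (c : Comp g B)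
    [DecidablePred (Touch g B c)] : (R.filter (Touch g B c)).card ≤ degR g B R c := by
  classical
  unfold degR
  rw [Finset.card_filter]
  apply Finset.sum_le_sum
  intro e _
  by_cases h : Touch g B c e
  · rw [if_pos h]
    rcases h with h | h
    · rw [if_pos h]; omega
    · rw [if_pos h]; omega
  · rw [if_neg h]; exact Nat.zero_le _

/-- the outer end -/
private def Outer {V E : Type} (g : E → V × V) (B : Finset E) (c o : Comp g B) (a : E) : Prop :=
  ((Quot.mk (Rel g B) (g a).1 : Comp g B) = c ∧ (Quot.mk (Rel g B) (g a).2 : Comp g B) = o) ∨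
  ((Quot.mk (Rel g B) (g a).1 : Comp g B) = o ∧ (Quot.mk (Rel g B) (g a).2 : Comp g B) = c)

private lemma exists_outer {V E : Type} (g : E → V × V) (B : Finset E) (c : Comp g B) (a : E)
    (h : (Quot.mk (Rel g B) (g a).1 : Comp g B) = c
      ↔ ¬ (Quot.mk (Rel g B) (g a).2 : Comp g B) = c) :
    ∃ o : Comp g B, o ≠ c ∧ Outer g B c o a := by
  by_cases h1 : (Quot.mk (Rel g B) (g a).1 : Comp g B) = c
  · exact ⟨_, h.1 h1, Or.inl ⟨h1, rfl⟩⟩
  · refine ⟨_, h1, Or.inr ⟨rfl, ?_⟩⟩
    by_contra h2
    exact h1 (h.2 h2)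

private lemma touch_of_outer {V E : Type} {g : E → V × V} {B : Finset E} {c o x : Comp g B} {a : E}
    (h : Outer g B c o a) (hx : Touch g B x a) : x = c ∨ x = o := by
  rcases h with ⟨h1, h2⟩ | ⟨h1, h2⟩ <;> rcases hx with h3 | h3
  · exact Or.inl (h3.symm.trans h1)
  · exact Or.inr (h3.symm.trans h2)
  · exact Or.inr (h3.symm.trans h1)
  · exact Or.inl (h3.symm.trans h2)

/-- parallel edges -/
private lemma conn_of_parallel {V E : Type} [DecidableEq E] {g : E → V × V} {B : Finset E}
    {c o : Comp g B} {a b : E} (ha : Outer g B c o a) (hb : Outer g B c o b) :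
    Conn g (insert b B) (g a).1 (g a).2 := by
  have hm : B ⊆ insert b B := Finset.subset_insert _ _
  have hbe : Conn g (insert b B) (g b).1 (g b).2 := Conn.edge (Finset.mem_insert_self _ _)
  rcases ha with ⟨h1, h2⟩ | ⟨h1, h2⟩ <;> rcases hb with ⟨h3, h4⟩ | ⟨h3, h4⟩
  · exact (Conn.mono hm (h1.trans h3.symm : Conn g B _ _)).trans
      (hbe.trans (Conn.mono hm (h4.trans h2.symm : Conn g B _ _)))
  · exact (Conn.mono hm (h1.trans h4.symm : Conn g B _ _)).trans
      (hbe.symm.trans (Conn.mono hm (h3.trans h2.symm : Conn g B _ _)))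
  · exact (Conn.mono hm (h1.trans h4.symm : Conn g B _ _)).trans
      (hbe.symm.trans (Conn.mono hm (h3.trans h2.symm : Conn g B _ _)))
  · exact (Conn.mono hm (h1.trans h3.symm : Conn g B _ _)).trans
      (hbe.trans (Conn.mono hm (h4.trans h2.symm : Conn g B _ _)))

/-- two edges of the rest with the same outer end -/
private lemma N_zero_of_parallel {D : Diagram} {A B : Finset D.E} {c o : Comp D.g B} {a b : D.E}
    (hab : a ≠ b) (haB : a ∉ B) (ha : Outer D.g B c o a) (hb : Outer D.g B c o b) :
    D.N A (insert a (insert b B)) = 0 := by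
  apply N_insert_of_conn
  · rw [Finset.mem_insert, not_or]
    exact ⟨hab, haB⟩
  · exact conn_of_parallel ha hb

/-- the third edge -/
private lemma third {V E : Type} [DecidableEq E] {g : E → V × V} {B Y : Finset E}
    {c oa ob od : Comp g B} {a b d : E} (ha : Outer g B c oa a) (hb : Outer g B c ob b)
    (hd : Outer g B c od d) (hdc : od ≠ c) (h1 : od ≠ oa) (h2 : od ≠ ob)
    (hcon : Conn g (B ∪ Y.erase d) (g d).1 (g d).2) :
    ∃ e ∈ Y, e ≠ a ∧ e ≠ b ∧ e ≠ d ∧ Touch g B od e := by
  by_contra hno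
  push Not at hno
  have h3 := iso_of_not_touch g od (Z := Y.erase d) (fun e he ht => by
    rw [Finset.mem_erase] at he
    by_cases hea : e = a
    · subst hea
      rcases touch_of_outer ha ht with h | h
      · exact hdc h
      · exact h1 h
    · by_cases heb : e = b
      · subst heb
        rcases touch_of_outer hb ht with h | h
        · exact hdc h
        · exact h2 h
      · exact hno e he.2 hea heb he.1 ht) hcon
  rcases hd with ⟨h4, h5⟩ | ⟨h4, h5⟩
  · exact hdc (((h3.2 h5).symm).trans h4)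
  · exact hdc (((h3.1 h4).symm).trans h5)

/-- PROOF: let `Y` be as in `conn_face`, `|Y| ≤ 4`, `a ∈ Y`. Neither `b` nor `d` in `Y`: then `c` is
isolated in `B ∪ Y \ {a}`, against `conn_face` for `a`. Both in `Y`: `Y ⊆ {a, b, d, e}`, `e` does not
touch `c`. By `conn_face` for `d` the outer end of `d` is connected with `c` by `B ∪ {a, b, e}`: so
it is the same component as that of `a` or of `b`, or `e` touches it; the same for `a` and `b`. As
`e` has only two ends, two of the outer ends are the same component of `(V, B)`, say those of `a`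
and `b`, and then `N A (insert a (insert b B)) = 0` (`N_insert_of_conn`). -/
theorem orth {D : Diagram} {A B : Finset D.E} {c : Comp D.g B} {a b d : D.E}
    (h : Star D A B c a b d) (hg : NoLoop D.g B (D.rest A B)) (hh : NoLoop D.h A (D.rest A B))
    (f : Comp D.h A) (hf : degR D.h A (D.rest A B) f ≤ 4) (ha : Touch D.h A f a) :
    (Touch D.h A f b ∧ ¬ Touch D.h A f d) ∨ (Touch D.h A f d ∧ ¬ Touch D.h A f b) ∨
    D.N A (insert a (insert b B)) = 0 ∨ D.N A (insert a (insert d B)) = 0 ∨
    D.N A (insert b (insert d B)) = 0 := by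
  classical
  set Y : Finset D.E := (D.rest A B).filter (Touch D.h A f) with hYdef
  have hY : ∀ e, e ∈ Y ↔ e ∈ D.rest A B ∧ Touch D.h A f e := fun e => by
    rw [hYdef, Finset.mem_filter]
  have hYc : Y.card ≤ 4 := (card_touch_le D.h A (D.rest A B) f).trans hf
  have hdis : Disjoint A B := h.good.1
  have haY : a ∈ Y := (hY a).2 ⟨h.ha, ha⟩
  have hcf : ∀ e ∈ Y, Conn D.g (B ∪ Y.erase e) (D.g e).1 (D.g e).2 := fun e he =>
    conn_face D hdis hh f Y hY he
  have o_a := h.one a h.ha (Or.inl rfl)
  have o_b := h.one b h.hb (Or.inr (Or.inl rfl))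
  have o_d := h.one d h.hd (Or.inr (Or.inr rfl))
  have nB : ∀ e ∈ D.rest A B, e ∉ B := fun e he => (mem_rest_iff.1 he).2
  by_cases hb : Touch D.h A f b
  · by_cases hd : Touch D.h A f d
    · -- both
      right; right
      have hbY : b ∈ Y := (hY b).2 ⟨h.hb, hb⟩
      have hdY : d ∈ Y := (hY d).2 ⟨h.hd, hd⟩
      obtain ⟨oa, hoa, Oa⟩ := exists_outer D.g B c a o_a
      obtain ⟨ob, hob, Ob⟩ := exists_outer D.g B c b o_b
      obtain ⟨od, hod, Od⟩ := exists_outer D.g B c d o_d
      by_cases h1 : oa = ob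
      · left
        subst h1
        exact N_zero_of_parallel h.ab (nB a h.ha) Oa Ob
      by_cases h2 : oa = od
      · right; left
        subst h2
        exact N_zero_of_parallel h.ad (nB a h.ha) Oa Od
      by_cases h3 : ob = od
      · right; right
        subst h3
        exact N_zero_of_parallel h.bd (nB b h.hb) Ob Od
      exfalso
      obtain ⟨e1, he1, e1a, e1b, e1d, t1⟩ :=
        third Oa Ob Od hod (fun h => h2 h.symm) (fun h => h3 h.symm) (hcf d hdY)
      obtain ⟨e2, he2, e2a, e2d, e2b, t2⟩ :=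
        third Oa Od Ob hob (fun h => h1 h.symm) h3 (hcf b hbY)
      obtain ⟨e3, he3, e3b, e3d, e3a, t3⟩ :=
        third Ob Od Oa hoa h1 h2 (hcf a haY)
      have hcard : (((Y.erase a).erase b).erase d).card ≤ 1 := by
        have k1 : b ∈ Y.erase a := Finset.mem_erase.2 ⟨h.ab.symm, hbY⟩
        have k2 : d ∈ (Y.erase a).erase b :=
          Finset.mem_erase.2 ⟨h.bd.symm, Finset.mem_erase.2 ⟨h.ad.symm, hdY⟩⟩
        rw [Finset.card_erase_of_mem k2, Finset.card_erase_of_mem k1,
          Finset.card_erase_of_mem haY]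
        omega
      rw [Finset.card_le_one] at hcard
      have mem : ∀ e ∈ Y, e ≠ a → e ≠ b → e ≠ d → e ∈ ((Y.erase a).erase b).erase d := by
        intro e he ea eb ed
        exact Finset.mem_erase.2 ⟨ed, Finset.mem_erase.2 ⟨eb, Finset.mem_erase.2 ⟨ea, he⟩⟩⟩
      have q1 := hcard e1 (mem e1 he1 e1a e1b e1d) e2 (mem e2 he2 e2a e2b e2d)
      have q2 := hcard e1 (mem e1 he1 e1a e1b e1d) e3 (mem e3 he3 e3a e3b e3d)
      subst q1
      subst q2
      rcases t1 with t1 | t1 <;> rcases t2 with t2 | t2 <;> rcases t3 with t3 | t3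
      · exact h1 (t3.symm.trans t2)
      · exact h3 (t2.symm.trans t1)
      · exact h2 (t3.symm.trans t1)
      · exact h1 (t3.symm.trans t2)
      · exact h1 (t3.symm.trans t2)
      · exact h2 (t3.symm.trans t1)
      · exact h3 (t2.symm.trans t1)
      · exact h1 (t3.symm.trans t2)
    · exact Or.inl ⟨hb, hd⟩
  · by_cases hd : Touch D.h A f d
    · exact Or.inr (Or.inl ⟨hd, hb⟩)
    · exfalso
      have h3 := iso_of_not_touch D.g c (Z := Y.erase a) (fun e he ht => by
        rw [Finset.mem_erase] at he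
        have her := (hY e).1 he.2
        have heb : e ≠ b := fun h' => hb (h' ▸ her.2)
        have hed : e ≠ d := fun h' => hd (h' ▸ her.2)
        have h4 := h.none e her.1 he.1 heb hed
        rcases ht with ht | ht
        · exact h4.1 ht
        · exact h4.2 ht) (hcf a haY)
      tauto

end Pool.Agent.Lib.TDisc
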