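import Pool.Agent.Lib.TDisc.Base

/-!
# Components of small degree in the minors
-/

set_option autoImplicit false

namespace Pool.Agent.Lib.TDisc

open Pool.Agent.Lib.TDen

/-- a component that is not touched by `d` stays a component when `d` is added, with the same
edges -/
theorem pers {V E : Type} [DecidableEq E] (g : E → V × V) {B : Finset E} (c : Comp g B) (d : E)
    (hd : ¬ Touch g B c d) (R : Finset E) :
    ∃ c' : Comp g (insert d B), degR g (insert d B) R c' = degR g B R c ∧
      ∀ e, Touch g (insert d B) c' e ↔ Touch g B c e := by
  classical
  obtain ⟨v0, hv0⟩ := c.exists_rep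
  have key : ∀ u : V, ((Quot.mk (Rel g (insert d B)) u : Comp g (insert d B)) =
      Quot.mk (Rel g (insert d B)) v0) ↔ (Quot.mk (Rel g B) u : Comp g B) = c := by
    intro u
    constructor
    · intro h
      have h' : Conn g (insert d B) u v0 := h
      have h2 := h'.rec_on (fun u v => (Quot.mk (Rel g B) u : Comp g B) = c ↔
        (Quot.mk (Rel g B) v : Comp g B) = c)
        ⟨fun _ => Iff.rfl, fun h => h.symm, fun h h' => h.trans h'⟩ (by
          intro e he
          rcases Finset.mem_insert.mp he with rfl | he
          · constructor
            · intro h3; exact absurd (Or.inl h3) hd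
            · intro h3; exact absurd (Or.inr h3) hd
          · have h3 : (Quot.mk (Rel g B) (g e).1 : Comp g B) = Quot.mk (Rel g B) (g e).2 :=
              Conn.edge he
            change (Quot.mk (Rel g B) (g e).1 : Comp g B) = c ↔
              (Quot.mk (Rel g B) (g e).2 : Comp g B) = c
            rw [h3])
      exact h2.2 hv0
    · intro h
      have h' : Conn g B u v0 := h.trans hv0.symm
      exact Conn.mono (Finset.subset_insert d B) h'
  refine ⟨Quot.mk (Rel g (insert d B)) v0, ?_, ?_⟩
  · unfold degR
    refine Finset.sum_congr rfl fun e _ => ?_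
    congr 1
    · exact if_congr (key _) rfl rfl
    · exact if_congr (key _) rfl rfl
  · intro e
    unfold Touch
    rw [key, key]

private lemma one_le_of_touch {V E : Type} (g : E → V × V) {B : Finset E}
    (c : Comp g B) {a : E} (hc : Touch g B c a) (p q : Decidable _) :
    1 ≤ (@ite ℕ ((Quot.mk (Rel g B) (g a).1 : Comp g B) = c) p 1 0) +
      (@ite ℕ ((Quot.mk (Rel g B) (g a).2 : Comp g B) = c) q 1 0) := by
  rcases hc with h | h
  · rw [if_pos h]; omega
  · rw [if_pos h]; omega

/-- the degree after removing an edge that touches `c` -/
theorem degR_erase {V E : Type} [DecidableEq E] (g : E → V × V) {B : Finset E} (c : Comp g B)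
    {R : Finset E} {a : E} (ha : a ∈ R) (hc : Touch g B c a) :
    degR g B (R.erase a) c + 1 ≤ degR g B R c := by
  unfold degR
  rw [← Finset.add_sum_erase R _ ha]
  have := one_le_of_touch g c hc (Classical.propDecidable _) (Classical.propDecidable _)
  omega

/-- two different components joined by `a` and by `b`: after contracting `b` (and removing `a` and
`b` from the rest) the new component has degree `deg c + deg c' - 4` -/
theorem merge_two {V E : Type} [DecidableEq E] (g : E → V × V) {B : Finset E} (c c' : Comp g B)
    (hcc : c ≠ c') {R : Finset E} {a b : E} (hab : a ≠ b) (ha : a ∈ R) (hb : b ∈ R)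
    (h1 : Touch g B c a) (h2 : Touch g B c' a) (h3 : Touch g B c b) (h4 : Touch g B c' b) :
    ∃ c'' : Comp g (insert b B),
      degR g (insert b B) ((R.erase a).erase b) c'' + 4 ≤ degR g B R c + degR g B R c' := by
  classical
  obtain ⟨v0, hv0⟩ := c.exists_rep
  have key : ∀ u : V, ((Quot.mk (Rel g (insert b B)) u : Comp g (insert b B)) =
      Quot.mk (Rel g (insert b B)) v0) ↔
        ((Quot.mk (Rel g B) u : Comp g B) = c ∨ (Quot.mk (Rel g B) u : Comp g B) = c') := by
    intro u
    constructor
    · intro h
      have h' : Conn g (insert b B) u v0 := h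
      have h5 := h'.rec_on (fun u v =>
        ((Quot.mk (Rel g B) u : Comp g B) = c ∨ (Quot.mk (Rel g B) u : Comp g B) = c') ↔
        ((Quot.mk (Rel g B) v : Comp g B) = c ∨ (Quot.mk (Rel g B) v : Comp g B) = c'))
        ⟨fun _ => Iff.rfl, fun h => h.symm, fun h h' => h.trans h'⟩ (by
          intro e he
          rcases Finset.mem_insert.mp he with rfl | he
          · have e1 : (Quot.mk (Rel g B) (g e).1 : Comp g B) = c ∨
                (Quot.mk (Rel g B) (g e).1 : Comp g B) = c' := by
              rcases h3 with h | h
              · exact Or.inl h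
              · rcases h4 with h' | h'
                · exact Or.inr h'
                · exact absurd (h.symm.trans h') hcc
            have e2 : (Quot.mk (Rel g B) (g e).2 : Comp g B) = c ∨
                (Quot.mk (Rel g B) (g e).2 : Comp g B) = c' := by
              rcases h3 with h | h
              · rcases h4 with h' | h'
                · exact absurd (h.symm.trans h') hcc
                · exact Or.inr h'
              · exact Or.inl h
            exact ⟨fun _ => e2, fun _ => e1⟩
          · have h3 : (Quot.mk (Rel g B) (g e).1 : Comp g B) = Quot.mk (Rel g B) (g e).2 :=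
              Conn.edge he
            change ((Quot.mk (Rel g B) (g e).1 : Comp g B) = c ∨
              (Quot.mk (Rel g B) (g e).1 : Comp g B) = c') ↔
              ((Quot.mk (Rel g B) (g e).2 : Comp g B) = c ∨
              (Quot.mk (Rel g B) (g e).2 : Comp g B) = c')
            rw [h3])
      exact h5.2 (Or.inl hv0)
    · intro h
      rcases h with h | h
      · have h' : Conn g B u v0 := h.trans hv0.symm
        exact Conn.mono (Finset.subset_insert b B) h'
      · have hbe : Conn g (insert b B) (g b).1 (g b).2 :=
          Conn.edge (Finset.mem_insert_self b B)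
        have hm : ∀ {x y : V}, Conn g B x y → Conn g (insert b B) x y :=
          fun h => Conn.mono (Finset.subset_insert b B) h
        rcases h3 with e1 | e1
        · rcases h4 with e2 | e2
          · exact absurd (e1.symm.trans e2) hcc
          · have s1 : Conn g (insert b B) u (g b).2 := hm (h.trans e2.symm)
            have s2 : Conn g (insert b B) (g b).1 v0 := hm (e1.trans hv0.symm)
            exact (s1.trans hbe.symm).trans s2
        · rcases h4 with e2 | e2
          · have s1 : Conn g (insert b B) u (g b).1 := hm (h.trans e2.symm)
            have s2 : Conn g (insert b B) (g b).2 v0 := hm (e1.trans hv0.symm)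
            exact (s1.trans hbe).trans s2
          · exact absurd (e1.symm.trans e2) hcc
  refine ⟨Quot.mk (Rel g (insert b B)) v0, ?_⟩
  have hbR : b ∈ R.erase a := Finset.mem_erase.2 ⟨hab.symm, hb⟩
  have A1 := degR_erase g c hbR h3
  have A2 := degR_erase g c ha h1
  have A3 := degR_erase g c' hbR h4
  have A4 := degR_erase g c' ha h2
  have hsum : degR g (insert b B) ((R.erase a).erase b) (Quot.mk (Rel g (insert b B)) v0) =
      degR g B ((R.erase a).erase b) c + degR g B ((R.erase a).erase b) c' := by
    unfold degR
    rw [← Finset.sum_add_distrib]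
    refine Finset.sum_congr rfl fun e _ => ?_
    have hite : ∀ u : V, (if (Quot.mk (Rel g (insert b B)) u : Comp g (insert b B)) =
        Quot.mk (Rel g (insert b B)) v0 then 1 else 0) =
        (if (Quot.mk (Rel g B) u : Comp g B) = c then 1 else 0) +
        (if (Quot.mk (Rel g B) u : Comp g B) = c' then 1 else 0) := by
      intro u
      by_cases hu : (Quot.mk (Rel g B) u : Comp g B) = c
      · have hu' : ¬ (Quot.mk (Rel g B) u : Comp g B) = c' := fun h => hcc (hu.symm.trans h)
        rw [if_pos ((key u).2 (Or.inl hu)), if_pos hu, if_neg hu']
      · by_cases hu' : (Quot.mk (Rel g B) u : Comp g B) = c'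
        · rw [if_pos ((key u).2 (Or.inr hu')), if_neg hu, if_pos hu']
        · rw [if_neg (fun h => ((key u).1 h).elim hu hu'), if_neg hu, if_neg hu']
    rw [hite, hite]
    omega
  omega

end Pool.Agent.Lib.TDisc
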