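import Pool.Agent.Lib.TDisc.Base

/-!
# A component of degree three: the splitting into seven kinds of trees
-/

set_option autoImplicit false

namespace Pool.Agent.Lib.TDisc

open Pool.Agent.Lib.TDen

/-- a component of degree three without loops is a star, with a given edge as first edge -/
theorem star_of_degR (D : Diagram) {A B : Finset D.E} (hG : D.Good A B)
    (hg : NoLoop D.g B (D.rest A B)) (c : Comp D.g B)
    (hc : degR D.g B (D.rest A B) c = 3) {a : D.E} (ha : a ∈ D.rest A B)
    (hca : Touch D.g B c a) : ∃ b d, Star D A B c a b d := by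
  classical
  set X : Finset D.E := (D.rest A B).filter fun e => Touch D.g B c e with hX
  have hone : ∀ e ∈ D.rest A B, Touch D.g B c e →
      ((Quot.mk (Rel D.g B) (D.g e).1 : Comp D.g B) = c
        ↔ ¬ (Quot.mk (Rel D.g B) (D.g e).2 : Comp D.g B) = c) := by
    intro e he ht
    have h1 := hg e he
    have h2 : ¬ ((Quot.mk (Rel D.g B) (D.g e).1 : Comp D.g B) = c ∧
        (Quot.mk (Rel D.g B) (D.g e).2 : Comp D.g B) = c) := by
      rintro ⟨h3, h4⟩
      exact h1 (h3.trans h4.symm)
    unfold Touch at ht
    tauto
  have hcard : X.card = 3 := by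
    rw [← hc]
    unfold degR
    rw [hX, Finset.card_filter]
    apply Finset.sum_congr rfl
    intro e he
    by_cases ht : Touch D.g B c e
    · rw [if_pos ht]
      have h1 := hone e he ht
      by_cases h2 : (Quot.mk (Rel D.g B) (D.g e).1 : Comp D.g B) = c
      · rw [if_pos h2, if_neg (h1.1 h2)]
      · have h3 : (Quot.mk (Rel D.g B) (D.g e).2 : Comp D.g B) = c := by
          by_contra h4
          exact h2 (h1.2 h4)
        rw [if_neg h2, if_pos h3]
    · rw [if_neg ht]
      unfold Touch at ht
      rw [not_or] at ht
      rw [if_neg ht.1, if_neg ht.2]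
  have haX : a ∈ X := Finset.mem_filter.2 ⟨ha, hca⟩
  have hcard2 : (X.erase a).card = 2 := by
    rw [Finset.card_erase_of_mem haX, hcard]
  rw [Finset.card_eq_two] at hcard2
  obtain ⟨b, d, hbd, hXbd⟩ := hcard2
  have hb : b ∈ X.erase a := by rw [hXbd]; simp
  have hd : d ∈ X.erase a := by rw [hXbd]; simp
  rw [Finset.mem_erase] at hb hd
  have hbX := Finset.mem_filter.1 hb.2
  have hdX := Finset.mem_filter.1 hd.2
  refine ⟨b, d, hG, hb.1.symm, hd.1.symm, hbd, ha, hbX.1, hdX.1, ?_, ?_⟩
  · rintro e he (rfl | rfl | rfl)
    · exact hone e he hca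
    · exact hone e he hbX.2
    · exact hone e he hdX.2
  · intro e he hea heb hed
    have h1 : e ∉ X := by
      intro h2
      have h3 : e ∈ X.erase a := Finset.mem_erase.2 ⟨hea, h2⟩
      rw [hXbd, Finset.mem_insert, Finset.mem_singleton] at h3
      tauto
    have h2 : ¬ Touch D.g B c e := fun h3 => h1 (Finset.mem_filter.2 ⟨he, h3⟩)
    unfold Touch at h2
    rw [not_or] at h2
    exact h2

/-- the symmetries of a star -/
lemma star_swap {D : Diagram} {A B : Finset D.E} {c : Comp D.g B} {a b d : D.E}
    (h : Star D A B c a b d) : Star D A B c a d b :=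
  ⟨h.good, h.ad, h.ab, h.bd.symm, h.ha, h.hd, h.hb,
    fun e he h1 => h.one e he (by tauto), fun e he h1 h2 h3 => h.none e he h1 h3 h2⟩

private lemma N_zero_star {D : Diagram} {A B : Finset D.E} {c : Comp D.g B} {a b d : D.E}
    (h : Star D A B c a b d) (hc : comps D.g B ≠ 1) :
    D.N (insert d (insert b (insert a A))) B = 0 := by
  unfold Diagram.N
  rw [Finset.card_eq_zero, Finset.eq_empty_iff_forall_notMem]
  intro S hS
  obtain ⟨e, he, _, hx⟩ := meets_cut D hS c hc
  rw [mem_rest_iff] at he
  simp only [Finset.mem_insert, not_or] at he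
  have her : e ∈ D.rest A B := mem_rest_iff.2 ⟨he.1.2.2.2, he.2⟩
  have h1 := h.none e her he.1.2.2.1 he.1.2.1 he.1.1
  tauto

/-- with `t = n_a = n_b = n_d`, `p = n_ab`, `q = n_ad`, `w = n_bd`, `r = n_abd`.
PROOF: `N_split`, `star_single`, and `meets_cut` (no tree avoids `a, b, d`). -/
theorem star_split {D : Diagram} {A B : Finset D.E} {c : Comp D.g B} {a b d : D.E}
    (h : Star D A B c a b d) (hc : comps D.g B ≠ 1) :
    D.N A B = 3 * D.N (insert b (insert d A)) (insert a B)
        + D.N (insert d A) (insert a (insert b B)) + D.N (insert b A) (insert a (insert d B))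
        + D.N (insert a A) (insert b (insert d B)) + D.N A (insert a (insert b (insert d B))) ∧
    D.N A (insert a B) = D.N (insert b (insert d A)) (insert a B)
        + D.N (insert d A) (insert a (insert b B)) + D.N (insert b A) (insert a (insert d B))
        + D.N A (insert a (insert b (insert d B))) ∧
    D.N A (insert d B) = D.N (insert b (insert d A)) (insert a B)
        + D.N (insert b A) (insert a (insert d B)) + D.N (insert a A) (insert b (insert d B))
        + D.N A (insert a (insert b (insert d B))) ∧
    D.N (insert b A) (insert a B) = D.N (insert b (insert d A)) (insert a B)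
        + D.N (insert b A) (insert a (insert d B)) ∧
    D.N (insert a A) (insert b B) = D.N (insert b (insert d A)) (insert a B)
        + D.N (insert a A) (insert b (insert d B)) := by
  have hab := h.ab
  have had := h.ad
  have hbd := h.bd
  obtain ⟨aA, aB⟩ := mem_rest_iff.1 h.ha
  obtain ⟨bA, bB⟩ := mem_rest_iff.1 h.hb
  obtain ⟨dA, dB⟩ := mem_rest_iff.1 h.hd
  have sp : ∀ (A' B' : Finset D.E) (e : D.E), e ∉ A' → e ∉ B' →
      D.N A' B' = D.N (insert e A') B' + D.N A' (insert e B') :=
    fun A' B' e h h' => D.N_split h h'
  obtain ⟨hs1, hs2⟩ := star_single h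
  have e0 := N_zero_star h hc
  have e1 := sp A B a aA aB
  have e2 := sp (insert a A) B b (by simp [hab.symm, bA]) bB
  have e3 := sp (insert b (insert a A)) B d (by simp [had.symm, hbd.symm, dA]) dB
  -- the trees with `a`
  have f1 := sp A (insert a B) b bA (by simp [hab.symm, bB])
  have f2 := sp (insert b A) (insert a B) d (by simp [hbd.symm, dA]) (by simp [had.symm, dB])
  have f3 := sp A (insert b (insert a B)) d dA (by simp [hbd.symm, had.symm, dB])
  -- the trees with `b`
  have g2 := sp (insert a A) (insert b B) d (by simp [had.symm, dA]) (by simp [hbd.symm, dB])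
  -- the trees with `d`
  have k1 := sp A (insert d B) a aA (by simp [had, aB])
  have k2 := sp (insert a A) (insert d B) b (by simp [hab.symm, bA]) (by simp [hbd, bB])
  have k3 := sp A (insert a (insert d B)) b bA (by simp [hab.symm, hbd, bB])
  have c1 : (insert d (insert b A) : Finset D.E) = insert b (insert d A) :=
    Finset.insert_comm _ _ _
  have c2 : (insert d (insert a A) : Finset D.E) = insert a (insert d A) :=
    Finset.insert_comm _ _ _
  have c3 : (insert b (insert a A) : Finset D.E) = insert a (insert b A) :=
    Finset.insert_comm _ _ _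
  have c4 : (insert b (insert a B) : Finset D.E) = insert a (insert b B) :=
    Finset.insert_comm _ _ _
  have c5 : (insert d (insert a B) : Finset D.E) = insert a (insert d B) :=
    Finset.insert_comm _ _ _
  have c6 : (insert d (insert b B) : Finset D.E) = insert b (insert d B) :=
    Finset.insert_comm _ _ _
  have c7 : (insert d (insert a (insert b B)) : Finset D.E) =
      insert a (insert b (insert d B)) := by
    rw [Finset.insert_comm d a, c6]
  have c8 : (insert b (insert a (insert d B)) : Finset D.E) =
      insert a (insert b (insert d B)) := Finset.insert_comm _ _ _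
  rw [c3] at e2 e0 e3
  rw [c4] at f1 f3
  rw [c1, c5] at f2
  rw [c7] at f3
  rw [c2, c6] at g2
  rw [c3] at k2
  rw [c8] at k3
  generalize D.N (insert b (insert d A)) (insert a B) = na at *
  generalize D.N (insert a (insert d A)) (insert b B) = nb at *
  generalize D.N (insert a (insert b A)) (insert d B) = nd at *
  generalize D.N (insert d A) (insert a (insert b B)) = nab at *
  generalize D.N (insert b A) (insert a (insert d B)) = nad at *
  generalize D.N (insert a A) (insert b (insert d B)) = nbd at *
  generalize D.N A (insert a (insert b (insert d B))) = nabd at *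
  refine ⟨?_, ?_, ?_, ?_, ?_⟩ <;> omega

end Pool.Agent.Lib.TDisc
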