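import Pool.Agent.Lib.TDisc.Two
import Pool.Agent.Lib.TDisc.Seven
import Pool.Agent.Lib.TDisc.Pers
import Pool.Agent.Lib.TDisc.Orth2
import Pool.Agent.Lib.TDisc.OptD

/-!
# The step for a component of degree three on a face of degree at most four
-/

set_option autoImplicit false

namespace Pool.Agent.Lib.TDisc

open Pool.Agent.Lib.TDen

private lemma sD_mono_right {D : Diagram} {A B B' : Finset D.E} (h : B ⊆ B') :
    D.N A B' ≤ D.N A B := by
  unfold Diagram.N
  refine Finset.card_le_card ?_
  intro S hS
  rw [D.mem_trees] at hS ⊢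
  exact ⟨h.trans hS.1, hS.2⟩

private lemma sD_degR_mono {V E : Type} (g : E → V × V) (B : Finset E) {R R' : Finset E}
    (h : R ⊆ R') (c : Comp g B) : degR g B R c ≤ degR g B R' c := by
  unfold degR
  exact Finset.sum_le_sum_of_subset h

/-- the bounds that follow from the induction hypothesis -/
private lemma sD_bounds {D : Diagram} {A B : Finset D.E} {c : Comp D.g B} {a b d : D.E}
    (h : Star D A B c a b d) (x : ℕ → ℝ) (m : ℕ)
    (hm : (D.rest A B).card = m + 8) (ih : Hyp D x (m + 8)) :
    (D.N A (insert d B) : ℝ) ≤ x (m + 7) ∧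
    (D.N (insert b A) (insert a B) : ℝ) ≤ x (m + 6) ∧
    (D.N (insert a A) (insert b B) : ℝ) ≤ x (m + 6) ∧
    (D.N (insert d A) (insert a B) : ℝ) ≤ x (m + 6) ∧
    (D.N (insert b (insert d A)) (insert a B) : ℝ) ≤ x (m + 5) ∧
    Disjoint (insert d A) (insert a (insert b B)) ∧
    (D.rest (insert d A) (insert a (insert b B))).card = m + 5 := by
  have hAB : Disjoint A B := h.good.1
  obtain ⟨haA, haB⟩ := mem_rest_iff.1 h.ha
  obtain ⟨hbA, hbB⟩ := mem_rest_iff.1 h.hb
  obtain ⟨hdA, hdB⟩ := mem_rest_iff.1 h.hd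
  have ab := h.ab
  have ad := h.ad
  have bd := h.bd
  have ba := ab.symm
  have da := ad.symm
  have db := bd.symm
  have hra := h.ha
  have hrb := h.hb
  have hrd := h.hd
  refine ⟨ih _ _ (m + 7) ?_ ?_ (by omega) (by omega), ih _ _ (m + 6) ?_ ?_ (by omega) (by omega),
    ih _ _ (m + 6) ?_ ?_ (by omega) (by omega), ih _ _ (m + 6) ?_ ?_ (by omega) (by omega),
    ih _ _ (m + 5) ?_ ?_ (by omega) (by omega), ?_, ?_⟩
  · simp [Finset.disjoint_insert_right, hAB, hdA]
  · rw [rest_insert_right, Finset.card_erase_of_mem hrd, hm]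
    omega
  · simp [Finset.disjoint_insert_right, Finset.disjoint_insert_left, hAB, haA, hbB, ab]
  · rw [rest_insert_left, rest_insert_right, Finset.card_erase_of_mem, Finset.card_erase_of_mem hra,
      hm]
    · omega
    · exact Finset.mem_erase.2 ⟨ba, hrb⟩
  · simp [Finset.disjoint_insert_right, Finset.disjoint_insert_left, hAB, hbA, haB, ba]
  · rw [rest_insert_left, rest_insert_right, Finset.card_erase_of_mem, Finset.card_erase_of_mem hrb,
      hm]
    · omega
    · exact Finset.mem_erase.2 ⟨ab, hra⟩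
  · simp [Finset.disjoint_insert_right, Finset.disjoint_insert_left, hAB, haA, hdB, ad]
  · rw [rest_insert_left, rest_insert_right, Finset.card_erase_of_mem, Finset.card_erase_of_mem hra,
      hm]
    · omega
    · exact Finset.mem_erase.2 ⟨da, hrd⟩
  · simp [Finset.disjoint_insert_right, Finset.disjoint_insert_left, hAB, haA, hbB, hdB, ab, ba,
      ad, da]
  · rw [rest_insert_left, rest_insert_left, rest_insert_right, Finset.card_erase_of_mem,
      Finset.card_erase_of_mem, Finset.card_erase_of_mem hra, hm]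
    · omega
    · exact Finset.mem_erase.2 ⟨da, hrd⟩
    · exact Finset.mem_erase.2 ⟨bd, Finset.mem_erase.2 ⟨ba, hrb⟩⟩
  · simp [Finset.disjoint_insert_right, Finset.disjoint_insert_left, hAB, haA, hbA, hdB, ad, da,
      bd, db]
  · rw [rest_insert_left, rest_insert_right, rest_insert_right, Finset.card_erase_of_mem,
      Finset.card_erase_of_mem, Finset.card_erase_of_mem hrb, hm]
    · omega
    · exact Finset.mem_erase.2 ⟨ab, hra⟩
    · exact Finset.mem_erase.2 ⟨da, Finset.mem_erase.2 ⟨db, hrd⟩⟩

/-- the identities of `star_split` and of the swapped star -/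
private lemma sD_idents {D : Diagram} {A B : Finset D.E} {c : Comp D.g B} {a b d : D.E}
    (h : Star D A B c a b d) (hc : comps D.g B ≠ 1) :
    D.N (insert d A) (insert a B) = D.N (insert b (insert d A)) (insert a B)
        + D.N (insert d A) (insert a (insert b B)) := by
  have h1 := (star_split (star_swap h) hc).2.2.2.1
  rw [Finset.insert_comm d b A] at h1
  exact h1

private lemma sD_case1 {D : Diagram} {A B : Finset D.E} {c : Comp D.g B} {a b d : D.E}
    (h : Star D A B c a b d) (hc : comps D.g B ≠ 1) (x : ℕ → ℝ) (m : ℕ)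
    (hm1 : 1 ≤ m) (hm : (D.rest A B).card = m + 8) (hx : ∀ k, 3 ≤ k → 1 ≤ x k) (ih : Hyp D x (m + 8))
    (hxx : ∀ k, x (k + 1) = x k * (4553 / 2500))
    (f : Comp D.h A) (hf : degR D.h A (D.rest A B) f ≤ 4) (ha : Touch D.h A f a)
    (hb : Touch D.h A f b) (hd : ¬ Touch D.h A f d) :
    (D.N A B : ℝ) ≤ x (m + 8) := by
  obtain ⟨b1, b2, b3, _, b5, hdis, hcard⟩ := sD_bounds h x m hm ih
  obtain ⟨s1, _, s3, s4, s5⟩ := star_split h hc
  have hray := star_rayleigh h
  -- the face persists
  obtain ⟨f', hf', _⟩ := pers D.h f d hd (D.rest (insert d A) (insert a (insert b B)))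
  have hdeg : degR D.h (insert d A) (D.rest (insert d A) (insert a (insert b B))) f' ≤ 2 := by
    rw [hf']
    have hb' : b ∈ (D.rest A B).erase a := Finset.mem_erase.2 ⟨h.ab.symm, h.hb⟩
    have e1 : degR D.h A ((D.rest A B).erase a) f + 1 ≤ degR D.h A (D.rest A B) f :=
      degR_erase D.h f h.ha ha
    have e2 : degR D.h A (((D.rest A B).erase a).erase b) f + 1 ≤
        degR D.h A ((D.rest A B).erase a) f := degR_erase D.h f hb' hb
    have e3 : degR D.h A (D.rest (insert d A) (insert a (insert b B))) f ≤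
        degR D.h A (((D.rest A B).erase a).erase b) f := by
      refine sD_degR_mono D.h A ?_ f
      rw [rest_insert_left, rest_insert_right, rest_insert_right]
      refine (Finset.erase_subset d _).trans ?_
      intro e he
      rw [Finset.mem_erase, Finset.mem_erase] at he ⊢
      tauto
    omega
  have hp : (D.N (insert d A) (insert a (insert b B)) : ℝ) ≤ x (m + 4) + x (m + 3) := by
    refine two_step_dual D hdis f' (m + 3) (x (m + 4)) (x (m + 3)) (by rw [hcard]) (hx _ (by omega))
      ((zero_le_one).trans (hx _ (by omega))) ?_ ?_ hdeg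
    · intro A' B' h1 h2
      exact ih A' B' (m + 4) h1 (by omega) (by omega) (by omega)
    · intro A' B' h1 h2
      exact ih A' B' (m + 3) h1 (by omega) (by omega) (by omega)
  have x4 : x (m + 4) = x (m + 3) * (4553 / 2500) := hxx (m + 3)
  have x5 : x (m + 5) = x (m + 4) * (4553 / 2500) := hxx (m + 4)
  have x6 : x (m + 6) = x (m + 5) * (4553 / 2500) := hxx (m + 5)
  have x7 : x (m + 7) = x (m + 6) * (4553 / 2500) := hxx (m + 6)
  have x8 : x (m + 8) = x (m + 7) * (4553 / 2500) := hxx (m + 7)
  have hc0 : 0 < x (m + 5) := lt_of_lt_of_le zero_lt_one (hx _ (by omega))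
  have key := optD (t := D.N (insert b (insert d A)) (insert a B))
    (p := D.N (insert d A) (insert a (insert b B))) (q := D.N (insert b A) (insert a (insert d B)))
    (w := D.N (insert a A) (insert b (insert d B)))
    (r := D.N A (insert a (insert b (insert d B)))) hc0 (Nat.cast_nonneg _) (Nat.cast_nonneg _)
    (Nat.cast_nonneg _) (Nat.cast_nonneg _) (Nat.cast_nonneg _)
    (by
      have e : ((D.N A (insert d B) : ℕ) : ℝ) = _ := congrArg Nat.cast s3
      push_cast at e
      rw [← e]
      refine b1.trans (le_of_eq ?_)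
      rw [x7, x6]
      ring)
    (by
      have e : ((D.N (insert b A) (insert a B) : ℕ) : ℝ) = _ := congrArg Nat.cast s4
      push_cast at e
      rw [← e]
      refine b2.trans (le_of_eq ?_)
      rw [x6])
    (by
      have e : ((D.N (insert a A) (insert b B) : ℕ) : ℝ) = _ := congrArg Nat.cast s5
      push_cast at e
      rw [← e]
      refine b3.trans (le_of_eq ?_)
      rw [x6])
    (by
      refine hp.trans (le_of_eq ?_)
      rw [x5, x4]
      ring)
    b5
    (by exact_mod_cast hray)
  have e : ((D.N A B : ℕ) : ℝ) = _ := congrArg Nat.cast s1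
  push_cast at e
  rw [e]
  refine key.trans (le_of_eq ?_)
  rw [x8, x7, x6]
  ring

/-- three numbers -/
private lemma sD_small {D : Diagram} {A B : Finset D.E} (x : ℕ → ℝ) (m t y z : ℕ)
    (hx : ∀ k, 3 ≤ k → 1 ≤ x k) (hxx : ∀ k, x (k + 1) = x k * (4553 / 2500))
    (hN : D.N A B = t + y + z) (ht : (t : ℝ) ≤ x (m + 5)) (hy : (y : ℝ) ≤ x (m + 6))
    (hz : (z : ℝ) ≤ x (m + 6)) : (D.N A B : ℝ) ≤ x (m + 8) := by
  have x6 : x (m + 6) = x (m + 5) * (4553 / 2500) := hxx (m + 5)
  have x7 : x (m + 7) = x (m + 6) * (4553 / 2500) := hxx (m + 6)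
  have x8 : x (m + 8) = x (m + 7) * (4553 / 2500) := hxx (m + 7)
  have hc0 : 0 < x (m + 5) := lt_of_lt_of_le zero_lt_one (hx _ (by omega))
  rw [hN]
  push_cast
  rw [x8, x7, x6]
  rw [x6] at hy hz
  nlinarith

/-- PROOF: by `orth` (and `star_swap`) either `f` touches `a, b` and not `d`: then in
`(insert d A, insert a (insert b B))` the face `f` persists (`pers` for `D.h`) with degree at most
`2`, so `p = n_ab ≤ x (n-4) + x (n-5)` (`two_step_dual`), and `optD` with `c = x (n-3)`,
`star_rayleigh`, `star_split`; or one of the three pairs has no tree: then two of `p, q, w, r`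
vanish suitably and `N A B ≤ 2 x (n-2) + x (n-3)`. -/
theorem step_D {D : Diagram} {A B : Finset D.E} {c : Comp D.g B} {a b d : D.E}
    (h : Star D A B c a b d) (hc : comps D.g B ≠ 1) (hg : NoLoop D.g B (D.rest A B))
    (hh : NoLoop D.h A (D.rest A B)) (x : ℕ → ℝ) (m : ℕ)
    (hm1 : 1 ≤ m) (hm : (D.rest A B).card = m + 8) (hx : ∀ k, 3 ≤ k → 1 ≤ x k) (ih : Hyp D x (m + 8))
    (hxx : ∀ k, x (k + 1) = x k * (4553 / 2500))
    (f : Comp D.h A) (hf : degR D.h A (D.rest A B) f ≤ 4) (ha : Touch D.h A f a) :
    (D.N A B : ℝ) ≤ x (m + 8) := by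
  obtain ⟨_, b2, b3, b4, b5, _, _⟩ := sD_bounds h x m hm ih
  obtain ⟨s1, _, _, s4, s5⟩ := star_split h hc
  have s6 := sD_idents h hc
  have hmono : ∀ B' : Finset D.E, B' ⊆ insert a (insert b (insert d B)) → D.N A B' = 0 →
      D.N A (insert a (insert b (insert d B))) = 0 := by
    intro B' h1 h2
    have := sD_mono_right (A := A) h1
    omega
  rcases orth h hg hh f hf ha with ⟨h1, h2⟩ | ⟨h1, h2⟩ | h1 | h1 | h1
  · exact sD_case1 h hc x m hm1 hm hx ih hxx f hf ha h1 h2
  · exact sD_case1 (star_swap h) hc x m hm1 hm hx ih hxx f hf ha h1 h2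
  · have hp : D.N (insert d A) (insert a (insert b B)) = 0 := by
      have := N_mono_left (D := D) (B := insert a (insert b B)) (Finset.subset_insert d A)
      omega
    have hr := hmono _ (Finset.insert_subset_insert a (Finset.insert_subset_insert b
      (Finset.subset_insert d B))) h1
    refine sD_small x m (D.N (insert b (insert d A)) (insert a B)) (D.N (insert b A) (insert a B))
      (D.N (insert a A) (insert b B)) hx hxx (by omega) b5 b2 b3
  · have hq : D.N (insert b A) (insert a (insert d B)) = 0 := by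
      have := N_mono_left (D := D) (B := insert a (insert d B)) (Finset.subset_insert b A)
      omega
    have hr := hmono _ (Finset.insert_subset_insert a (Finset.subset_insert b (insert d B))) h1
    refine sD_small x m (D.N (insert b (insert d A)) (insert a B)) (D.N (insert d A) (insert a B))
      (D.N (insert a A) (insert b B)) hx hxx (by omega) b5 b4 b3
  · have hw : D.N (insert a A) (insert b (insert d B)) = 0 := by
      have := N_mono_left (D := D) (B := insert b (insert d B)) (Finset.subset_insert a A)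
      omega
    have hr := hmono _ (Finset.subset_insert a (insert b (insert d B))) h1
    refine sD_small x m (D.N (insert b (insert d A)) (insert a B)) (D.N (insert d A) (insert a B))
      (D.N (insert b A) (insert a B)) hx hxx (by omega) b5 b4 b2

end Pool.Agent.Lib.TDisc
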