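import Mathlib

/-!
# The bound function and the numerical inequalities
-/

set_option autoImplicit false

namespace Pool.Agent.Lib.TDisc

open Real

/-- the bound function -/
noncomputable def xx (k : ℕ) : ℝ := 5 * (4553 / 2500 : ℝ) ^ k / (4553 / 2500 : ℝ) ^ 4

private lemma xx_pos (k : ℕ) : 0 < xx k := by
  unfold xx
  positivity

lemma xx_succ (k : ℕ) : xx (k + 1) = xx k * (4553 / 2500) := by
  unfold xx
  rw [pow_succ]
  ring

private lemma xx_add (k j : ℕ) : xx (k + j) = xx k * (4553 / 2500) ^ j := by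
  unfold xx
  rw [pow_add]
  ring

private lemma xx_val (k : ℕ) (c : ℝ) (h : c * (4553 / 2500 : ℝ) ^ 4 ≤ 5 * (4553 / 2500 : ℝ) ^ k) :
    c ≤ xx k := by
  unfold xx
  rw [le_div_iff₀ (by positivity)]
  exact h

lemma one_le_xx (k : ℕ) (hk : 3 ≤ k) : 1 ≤ xx k := by
  obtain ⟨m, rfl⟩ : ∃ m, k = 3 + m := ⟨k - 3, by omega⟩
  rw [xx_add]
  have h1 : (1 : ℝ) ≤ (4553 / 2500 : ℝ) ^ m := one_le_pow₀ (by norm_num)
  have h2 : 2 ≤ xx 3 := by
    apply xx_val
    norm_num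
  nlinarith

lemma xx_two (k : ℕ) : xx (k + 1) + xx k ≤ xx (k + 2) := by
  rw [xx_add k 1, xx_add k 2]
  have h := xx_pos k
  nlinarith

lemma xx_B (m : ℕ) : xx (m + 7) + (xx (m + 5) + xx (m + 4)) + xx (m + 5) ≤ xx (m + 8) := by
  have h7 : xx (m + 7) = xx (m + 4) * (4553 / 2500) ^ 3 := xx_add (m + 4) 3
  have h5 : xx (m + 5) = xx (m + 4) * (4553 / 2500) ^ 1 := xx_add (m + 4) 1
  have h8 : xx (m + 8) = xx (m + 4) * (4553 / 2500) ^ 4 := xx_add (m + 4) 4
  rw [h7, h5, h8]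
  have h := xx_pos (m + 4)
  nlinarith

lemma xx_D (m : ℕ) : 2 * xx (m + 6) + xx (m + 5) ≤ xx (m + 8) := by
  have h6 : xx (m + 6) = xx (m + 5) * (4553 / 2500) ^ 1 := xx_add (m + 5) 1
  have h8 : xx (m + 8) = xx (m + 5) * (4553 / 2500) ^ 3 := xx_add (m + 5) 3
  rw [h6, h8]
  have h := xx_pos (m + 5)
  nlinarith

lemma xx_four : xx 4 = 5 := by
  unfold xx
  norm_num

lemma xx_five : 9 ≤ xx 5 := by
  apply xx_val
  norm_num

lemma xx_six : 16 ≤ xx 6 := by
  apply xx_val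
  norm_num

lemma xx_seven : 30 ≤ xx 7 := by
  apply xx_val
  norm_num

lemma xx_eight : 55 ≤ xx 8 := by
  apply xx_val
  norm_num

set_option exponentiation.threshold 1000 in
lemma two_pi_log_deltaD_lt : 2 * π * Real.log (4553 / 2500) < 3.767 := by
  have h1 : Real.log ((4553 / 2500 : ℝ) ^ 348) ≤ Real.log ((2 : ℝ) ^ 301) := by
    apply Real.log_le_log (by positivity)
    norm_num
  rw [Real.log_pow, Real.log_pow] at h1
  push_cast at h1
  have h2 := Real.log_two_lt_d9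
  have h3 : Real.log (4553 / 2500) ≤ 0.5995340 := by linarith
  have h4 : 0 ≤ Real.log (4553 / 2500) := Real.log_nonneg (by norm_num)
  have h5 := Real.pi_lt_d6
  have h6 := Real.pi_pos
  nlinarith

end Pool.Agent.Lib.TDisc
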