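import Pool.Agent.Lib.TDisc.StepB
import Pool.Agent.Lib.TDisc.StepD
import Pool.Agent.Lib.TDisc.Config
import Pool.Agent.Lib.TDisc.XX
import Pool.Agent.Lib.TDen.Five

/-!
# The bound with the constant 1.8212
-/

set_option autoImplicit false

namespace Pool.Agent.Lib.TDisc

open Pool.Agent.Lib.TDen

private lemma conf_step (D : Diagram) {A B : Finset D.E} (m : ℕ) (hm1 : 1 ≤ m)
    (hm : (D.rest A B).card = m + 8) (ih : Hyp D xx (m + 8)) (hG : D.Good A B)
    (hg : NoLoop D.g B (D.rest A B)) (hh : NoLoop D.h A (D.rest A B))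
    (hconf : ConfB D.g B (D.rest A B) ∨ ConfD D.g D.h B A (D.rest A B)) :
    (D.N A B : ℝ) ≤ xx (m + 8) := by
  have hcomp : ∀ e ∈ D.rest A B, comps D.g B ≠ 1 := by
    intro e he h1
    exact hg e he (conn_of_comps_eq_one h1 _ _)
  rcases hconf with ⟨c, c', e, hcc, h3, h3', he, ht, ht'⟩ | ⟨c, f, e, h3, hf, he, htc, htf⟩
  · obtain ⟨b, d, hS⟩ := star_of_degR D hG hg c h3 he ht
    have key := step_B hS (hcomp e he) xx m hm one_le_xx ih c' hcc (le_of_eq h3')
      (le_of_eq h3) ht'
    exact key.trans (xx_B m)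
  · obtain ⟨b, d, hS⟩ := star_of_degR D hG hg c h3 he htc
    exact step_D hS (hcomp e he) hg hh xx m hm1 hm one_le_xx ih xx_succ f hf htf

private lemma nat_of_five (D : Diagram) (A B : Finset D.E) (hAB : Disjoint A B) (j v : ℕ)
    (hm : (D.rest A B).card = j + 4) (hv : 5 * (3657 / 2000 : ℝ) ^ j < v + 1) :
    (D.N A B : ℝ) ≤ v := by
  have h := N_le5 D j A B hAB hm
  have h1 : (D.N A B : ℝ) < v + 1 := lt_of_le_of_lt h hv
  have h2 : D.N A B < v + 1 := by exact_mod_cast h1
  have h3 : D.N A B ≤ v := by omega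
  exact_mod_cast h3

/-- PROOF: `N = 0` if not good. A loop or a bridge in the rest: `loop_step`, `bridge_step`,
`x (n-1) ≤ x n`. A component of degree at most two: `two_step`, `two_step_dual`,
`x (n-1) + x (n-2) ≤ x n`. Otherwise `exists_config`, then `star_of_degR` and `step_B`, `step_D`
for `D` or for `D.dual` (`N_dual`, `rest_dual`, `Good.dual`; `comps g B ≠ 1` since otherwise
every edge of the rest is a loop); `x (n-1) + 2 x (n-3) + x (n-4) ≤ x n`. -/
theorem main_step (D : Diagram) (m : ℕ) (hm1 : 1 ≤ m) (A B : Finset D.E) (hAB : Disjoint A B)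
    (hm : (D.rest A B).card = m + 8) (ih : Hyp D xx (m + 8)) (ih' : Hyp D.dual xx (m + 8)) :
    (D.N A B : ℝ) ≤ xx (m + 8) := by
  have p6 : (1 : ℝ) ≤ xx (m + 6) := one_le_xx _ (by omega)
  have p7 : (1 : ℝ) ≤ xx (m + 7) := one_le_xx _ (by omega)
  have p8 : (1 : ℝ) ≤ xx (m + 8) := one_le_xx _ (by omega)
  have e2 : xx (m + 7) + xx (m + 6) ≤ xx (m + 8) := xx_two (m + 6)
  by_cases h0 : D.N A B = 0
  · rw [h0]
    simp only [Nat.cast_zero]
    linarith
  have hG := D.good_of_N_ne_zero h0
  by_cases hg : NoLoop D.g B (D.rest A B)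
  swap
  · have hg2 : ∃ e ∈ D.rest A B, Conn D.g B (D.g e).1 (D.g e).2 := by
      by_contra hcon
      apply hg
      intro e he hc
      exact hcon ⟨e, he, hc⟩
    obtain ⟨e, he, hc⟩ := hg2
    rw [loop_step D he hc]
    have heB : e ∉ B := (mem_rest_iff.mp he).2
    have := ih (insert e A) B (m + 7)
      (by rw [Finset.disjoint_insert_left]; exact ⟨heB, hAB⟩)
      (by rw [rest_insert_left, Finset.card_erase_of_mem he, hm]; rfl) (by omega) (by omega)
    linarith
  by_cases hh : NoLoop D.h A (D.rest A B)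
  swap
  · have hh2 : ∃ e ∈ D.rest A B, Conn D.h A (D.h e).1 (D.h e).2 := by
      by_contra hcon
      apply hh
      intro e he hc
      exact hcon ⟨e, he, hc⟩
    obtain ⟨e, he, hc⟩ := hh2
    rw [bridge_step D he hc]
    have heA : e ∉ A := (mem_rest_iff.mp he).1
    have := ih A (insert e B) (m + 7)
      (by rw [Finset.disjoint_insert_right]; exact ⟨heA, hAB⟩)
      (by rw [rest_insert_right, Finset.card_erase_of_mem he, hm]; rfl) (by omega) (by omega)
    linarith
  by_cases dg : ∀ c : Comp D.g B, 3 ≤ degR D.g B (D.rest A B) c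
  swap
  · rw [not_forall] at dg
    obtain ⟨c, hc⟩ := dg
    have := two_step D hAB c (m + 6) (xx (m + 7)) (xx (m + 6)) hm p7 (by linarith)
      (fun A' B' hd hr => ih A' B' (m + 7) hd hr (by omega) (by omega))
      (fun A' B' hd hr => ih A' B' (m + 6) hd hr (by omega) (by omega)) (by omega)
    linarith
  by_cases dh : ∀ f : Comp D.h A, 3 ≤ degR D.h A (D.rest A B) f
  swap
  · rw [not_forall] at dh
    obtain ⟨f, hf⟩ := dh
    have := two_step_dual D hAB f (m + 6) (xx (m + 7)) (xx (m + 6)) hm p7 (by linarith)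
      (fun A' B' hd hr => ih A' B' (m + 7) hd hr (by omega) (by omega))
      (fun A' B' hd hr => ih A' B' (m + 6) hd hr (by omega) (by omega)) (by omega)
    linarith
  rcases exists_config D hG hg hh dg dh with h | h | h | h
  · exact conf_step D m hm1 hm ih hG hg hh (Or.inl h)
  · have hs := conf_step D.dual (A := B) (B := A) m hm1 (by rw [D.rest_dual]; exact hm) ih' hG.dual
      (by rw [D.rest_dual]; exact hh) (by rw [D.rest_dual]; exact hg)
      (Or.inl (by rw [D.rest_dual]; exact h))
    rw [D.N_dual] at hs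
    exact hs
  · exact conf_step D m hm1 hm ih hG hg hh (Or.inr h)
  · have hs := conf_step D.dual (A := B) (B := A) m hm1 (by rw [D.rest_dual]; exact hm) ih' hG.dual
      (by rw [D.rest_dual]; exact hh) (by rw [D.rest_dual]; exact hg)
      (Or.inr (by rw [D.rest_dual]; exact h))
    rw [D.N_dual] at hs
    exact hs

/-- PROOF: strong induction; `k = 4, .., 8` by `N_le5`
(`5 ≤ xx 4`, `9 ≤ xx 5`, `16 ≤ xx 6`, `30 ≤ xx 7`, `55 ≤ xx 8`). -/
theorem N_leD (D : Diagram) (A B : Finset D.E) (hAB : Disjoint A B) (k : ℕ) (hk : 4 ≤ k)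
    (hm : (D.rest A B).card = k) : (D.N A B : ℝ) ≤ xx k := by
  induction k using Nat.strong_induction_on generalizing A B with
  | _ k ih =>
    rcases Nat.lt_or_ge k 9 with h8 | h8
    · interval_cases k
      · have h := nat_of_five D A B hAB 0 5 hm (by norm_num)
        rw [xx_four]
        exact_mod_cast h
      · have h := nat_of_five D A B hAB 1 9 hm (by norm_num)
        exact le_trans (by exact_mod_cast h) xx_five
      · have h := nat_of_five D A B hAB 2 16 hm (by norm_num)
        exact le_trans (by exact_mod_cast h) xx_six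
      · have h := nat_of_five D A B hAB 3 30 hm (by norm_num)
        exact le_trans (by exact_mod_cast h) xx_seven
      · have h := nat_of_five D A B hAB 4 55 hm (by norm_num)
        exact le_trans (by exact_mod_cast h) xx_eight
    · obtain ⟨m, rfl⟩ : ∃ m, k = m + 8 := ⟨k - 8, by omega⟩
      refine main_step D m (by omega) A B hAB hm ?_ ?_
      · intro A' B' k' hd hr h3 hk'
        exact ih k' hk' A' B' hd h3 hr
      · intro A' B' k' hd hr h3 hk'
        have e := D.N_dual B' A'
        have f := D.rest_dual B' A'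
        rw [e]
        rw [f] at hr
        exact ih k' hk' B' A' hd.symm h3 hr

end Pool.Agent.Lib.TDisc
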