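import Pool.Agent.Lib.TDisc.Two
import Pool.Agent.Lib.TDisc.Seven
import Pool.Agent.Lib.TDisc.Pers

/-!
# The step for two adjacent components of degree three
-/

set_option autoImplicit false

namespace Pool.Agent.Lib.TDisc

open Pool.Agent.Lib.TDen

private lemma stepB_touch {D : Diagram} {A B : Finset D.E} {c : Comp D.g B} {a b d : D.E}
    (h : Star D A B c a b d) {e : D.E} (he : e ∈ D.rest A B) (he2 : e = a ∨ e = b ∨ e = d) :
    Touch D.g B c e := by
  have h1 := h.one e he he2
  unfold Touch
  by_cases h2 : (Quot.mk (Rel D.g B) (D.g e).1 : Comp D.g B) = c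
  · exact Or.inl h2
  · by_cases h3 : (Quot.mk (Rel D.g B) (D.g e).2 : Comp D.g B) = c
    · exact Or.inr h3
    · exact absurd (h1.2 h3) h2

private lemma stepB_mono {V E : Type} [DecidableEq E] (g : E → V × V) (B R : Finset E)
    (c : Comp g B) (b : E) : degR g B (R.erase b) c ≤ degR g B R c := by
  unfold degR
  exact Finset.sum_le_sum_of_subset (Finset.erase_subset b R)

/-- PROOF: `star_split`: `N A B = N A (insert a B) + N (insert a A) (insert b B) + t`; the first is
at most `x (n-1)`; for the second: if `b` does not touch `c'` then `c'` persists (`pers`) in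
`insert b B` with degree at most `2` in the rest without `a, b` (`degR_erase`), otherwise the
components merge with degree at most `2` (`merge_two`): `two_step` gives `x (n-3) + x (n-4)`; and
`t ≤ x (n-3)`. -/
theorem step_B {D : Diagram} {A B : Finset D.E} {c : Comp D.g B} {a b d : D.E}
    (h : Star D A B c a b d) (hc : comps D.g B ≠ 1) (x : ℕ → ℝ) (m : ℕ)
    (hm : (D.rest A B).card = m + 8) (hx : ∀ k, 3 ≤ k → 1 ≤ x k) (ih : Hyp D x (m + 8))
    (c' : Comp D.g B) (hcc : c ≠ c') (hc' : degR D.g B (D.rest A B) c' ≤ 3)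
    (hdc : degR D.g B (D.rest A B) c ≤ 3) (ha : Touch D.g B c' a) :
    (D.N A B : ℝ) ≤ x (m + 7) + (x (m + 5) + x (m + 4)) + x (m + 5) := by
  obtain ⟨s1, s2, -, -, s5⟩ := star_split h hc
  have hAB : Disjoint A B := h.good.1
  have ma := mem_rest_iff.1 h.ha
  have mb := mem_rest_iff.1 h.hb
  have md := mem_rest_iff.1 h.hd
  have hab := h.ab
  have had := h.ad
  have hbd := h.bd
  have r1 : (D.rest A (insert a B)).card = m + 7 := by
    rw [rest_insert_right, Finset.card_erase_of_mem h.ha, hm]
    omega
  have d1 : Disjoint A (insert a B) := by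
    rw [Finset.disjoint_insert_right]
    exact ⟨ma.1, hAB⟩
  have r2 : D.rest (insert a A) (insert b B) = ((D.rest A B).erase b).erase a := by
    rw [rest_insert_left, rest_insert_right]
  have r2c : (D.rest (insert a A) (insert b B)).card = (m + 4) + 2 := by
    rw [r2, Finset.card_erase_of_mem (Finset.mem_erase.2 ⟨hab, h.ha⟩),
      Finset.card_erase_of_mem h.hb, hm]
    omega
  have d2 : Disjoint (insert a A) (insert b B) := by
    rw [Finset.disjoint_insert_left, Finset.disjoint_insert_right, Finset.mem_insert]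
    exact ⟨fun h' => h'.elim hab ma.2, mb.1, hAB⟩
  have r3 : (D.rest (insert b (insert d A)) (insert a B)).card = m + 5 := by
    rw [rest_insert_left, rest_insert_left, rest_insert_right,
      Finset.card_erase_of_mem (Finset.mem_erase.2 ⟨hbd, Finset.mem_erase.2 ⟨hab.symm, h.hb⟩⟩),
      Finset.card_erase_of_mem (Finset.mem_erase.2 ⟨had.symm, h.hd⟩),
      Finset.card_erase_of_mem h.ha, hm]
    omega
  have d3 : Disjoint (insert b (insert d A)) (insert a B) := by
    rw [Finset.disjoint_insert_left, Finset.disjoint_insert_left, Finset.disjoint_insert_right,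
      Finset.mem_insert, Finset.mem_insert]
    exact ⟨fun h' => h'.elim hab.symm mb.2, fun h' => h'.elim had.symm md.2, ma.1, hAB⟩
  have i1 : (D.N A (insert a B) : ℝ) ≤ x (m + 7) := ih _ _ (m + 7) d1 r1 (by omega) (by omega)
  have i3 : (D.N (insert b (insert d A)) (insert a B) : ℝ) ≤ x (m + 5) :=
    ih _ _ (m + 5) d3 r3 (by omega) (by omega)
  have hdeg : ∃ c'' : Comp D.g (insert b B),
      degR D.g (insert b B) (((D.rest A B).erase b).erase a) c'' ≤ 2 := by
    by_cases hb' : Touch D.g B c' b
    · obtain ⟨c'', h'⟩ := merge_two D.g c c' hcc hab h.ha h.hb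
        (stepB_touch h h.ha (Or.inl rfl)) ha (stepB_touch h h.hb (Or.inr (Or.inl rfl))) hb'
      refine ⟨c'', ?_⟩
      rw [Finset.erase_right_comm]
      omega
    · obtain ⟨c'', h', -⟩ := pers D.g c' b hb' (((D.rest A B).erase b).erase a)
      refine ⟨c'', ?_⟩
      rw [h', Finset.erase_right_comm]
      have h1 := stepB_mono D.g B ((D.rest A B).erase a) c' b
      have h2 := degR_erase D.g c' h.ha ha
      omega
  obtain ⟨c'', hc''⟩ := hdeg
  have i2 : (D.N (insert a A) (insert b B) : ℝ) ≤ x (m + 5) + x (m + 4) := by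
    refine two_step D d2 c'' (m + 4) (x (m + 5)) (x (m + 4)) r2c (hx _ (by omega))
      (le_trans zero_le_one (hx _ (by omega))) ?_ ?_ (by rw [r2]; exact hc'')
    · intro A' B' h1 h2
      exact ih A' B' (m + 5) h1 h2 (by omega) (by omega)
    · intro A' B' h1 h2
      exact ih A' B' (m + 4) h1 h2 (by omega) (by omega)
  have e : D.N A B = D.N A (insert a B) + D.N (insert a A) (insert b B) +
      D.N (insert b (insert d A)) (insert a B) := by
    rw [s1, s2, s5]
    ring
  rw [e]
  push_cast
  linarith

end Pool.Agent.Lib.TDisc
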