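import Pool.Agent.Lib.TDisc.Base

/-!
# Loops and components of degree at most two
-/

set_option autoImplicit false

namespace Pool.Agent.Lib.TDisc

open Pool.Agent.Lib.TDen

private lemma cut_zero {D : Diagram} {A B A' : Finset D.E} (c : Comp D.g B)
    (hc : comps D.g B ≠ 1) (hAA : A ⊆ A')
    (h : ∀ e ∈ D.rest A B, ((Quot.mk (Rel D.g B) (D.g e).1 : Comp D.g B) = c
      ↔ ¬ (Quot.mk (Rel D.g B) (D.g e).2 : Comp D.g B) = c) → e ∈ A') :
    D.N A' B = 0 := by
  unfold Diagram.N
  rw [Finset.card_eq_zero, Finset.eq_empty_iff_forall_notMem]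
  intro S hS
  obtain ⟨e, he, heS, hx⟩ := meets_cut D hS c hc
  rw [mem_rest_iff] at he
  exact he.1 (h e (mem_rest_iff.2 ⟨fun h' => he.1 (hAA h'), he.2⟩) hx)

private lemma le_one_of_comps {D : Diagram} {A B : Finset D.E} (hc : comps D.g B = 1) :
    D.N A B ≤ 1 := by
  unfold Diagram.N
  rw [Finset.card_le_one]
  have key : ∀ S ∈ D.trees A B, S = B := by
    intro S hS
    have h1 := D.mem_trees.1 hS
    have h2 := D.card_of_mem hS
    have h3 := card_le_comps_add D.g B
    exact (Finset.eq_of_subset_of_card_le h1.1 (by omega)).symm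
  intro S hS S' hS'
  rw [key S hS, key S' hS']

/-- a component of degree at most two. PROOF: `comps g B = 1`: `N ≤ 1`. Otherwise let `X` be the
edges of the rest with exactly one end in `c`; `meets_cut`; `X = ∅`: `N = 0`; `X = {a}`:
`N A B = N A (insert a B)`; `X = {a, b}`: `N A B ≤ N A (insert a B) + N (insert a A) (insert b B)`. -/
theorem two_step (D : Diagram) {A B : Finset D.E} (hAB : Disjoint A B) (c : Comp D.g B) (n : ℕ)
    (x1 x2 : ℝ) (hn : (D.rest A B).card = n + 2) (hx1 : 1 ≤ x1) (hx2 : 0 ≤ x2)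
    (ih1 : ∀ A' B' : Finset D.E, Disjoint A' B' → (D.rest A' B').card = n + 1 →
      (D.N A' B' : ℝ) ≤ x1)
    (ih2 : ∀ A' B' : Finset D.E, Disjoint A' B' → (D.rest A' B').card = n →
      (D.N A' B' : ℝ) ≤ x2)
    (hc : degR D.g B (D.rest A B) c ≤ 2) : (D.N A B : ℝ) ≤ x1 + x2 := by
  classical
  by_cases hcomp : comps D.g B = 1
  · have h1 : D.N A B ≤ 1 := le_one_of_comps hcomp
    have h2 : (D.N A B : ℝ) ≤ 1 := by exact_mod_cast h1
    linarith
  have bR : ∀ e ∈ D.rest A B, (D.N A (insert e B) : ℝ) ≤ x1 := by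
    intro e he
    apply ih1
    · rw [Finset.disjoint_insert_right]
      exact ⟨(mem_rest_iff.1 he).1, hAB⟩
    · rw [rest_insert_right, Finset.card_erase_of_mem he, hn]
      rfl
  have bLR : ∀ e ∈ D.rest A B, ∀ f ∈ D.rest A B, f ≠ e →
      (D.N (insert e A) (insert f B) : ℝ) ≤ x2 := by
    intro e he f hf hfe
    apply ih2
    · rw [Finset.disjoint_insert_right, Finset.disjoint_insert_left, Finset.mem_insert, not_or]
      exact ⟨⟨hfe, (mem_rest_iff.1 hf).1⟩, (mem_rest_iff.1 he).2, hAB⟩
    · rw [rest_insert_right, rest_insert_left,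
        Finset.card_erase_of_mem (Finset.mem_erase.2 ⟨hfe, hf⟩), Finset.card_erase_of_mem he, hn]
      rfl
  set X : Finset D.E := (D.rest A B).filter fun e =>
    ((Quot.mk (Rel D.g B) (D.g e).1 : Comp D.g B) = c
      ↔ ¬ (Quot.mk (Rel D.g B) (D.g e).2 : Comp D.g B) = c) with hX
  have hXr : ∀ e ∈ X, e ∈ D.rest A B := fun e he => (Finset.mem_filter.1 he).1
  have hXone : ∀ e ∈ X, ((Quot.mk (Rel D.g B) (D.g e).1 : Comp D.g B) = c
      ↔ ¬ (Quot.mk (Rel D.g B) (D.g e).2 : Comp D.g B) = c) :=
    fun e he => (Finset.mem_filter.1 he).2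
  have hzero : ∀ A', A ⊆ A' → X ⊆ A' → D.N A' B = 0 := by
    intro A' hAA hXA
    exact cut_zero c hcomp hAA fun e he hx => hXA (Finset.mem_filter.2 ⟨he, hx⟩)
  have hsum : X.card ≤ 2 := by
    refine le_trans ?_ hc
    unfold degR
    rw [Finset.card_eq_sum_ones]
    refine le_trans ?_ (Finset.sum_le_sum_of_subset (Finset.filter_subset _ _ : X ⊆ D.rest A B))
    apply Finset.sum_le_sum
    intro e he
    have h2 := hXone e he
    by_cases h3 : (Quot.mk (Rel D.g B) (D.g e).1 : Comp D.g B) = c
    · rw [if_pos h3]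
      omega
    · have h4 : (Quot.mk (Rel D.g B) (D.g e).2 : Comp D.g B) = c := by
        by_contra h5
        exact h3 (h2.2 h5)
      rw [if_pos h4]
      omega
  obtain hX0 | hX1 | hX2 : X.card = 0 ∨ X.card = 1 ∨ X.card = 2 := by omega
  · rw [Finset.card_eq_zero] at hX0
    have h2 := hzero A subset_rfl (by rw [hX0]; exact Finset.empty_subset _)
    rw [h2]
    simp only [Nat.cast_zero]
    linarith
  · rw [Finset.card_eq_one] at hX1
    obtain ⟨a, ha⟩ := hX1
    have har : a ∈ D.rest A B := hXr a (by rw [ha]; simp)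
    have h2 := hzero (insert a A) (Finset.subset_insert _ _) (by rw [ha]; simp)
    have h3 := D.N_split (mem_rest_iff.1 har).1 (mem_rest_iff.1 har).2
    have h4 := bR a har
    rw [h2, Nat.zero_add] at h3
    rw [h3]
    linarith
  · rw [Finset.card_eq_two] at hX2
    obtain ⟨a, b, hab, hXab⟩ := hX2
    have har : a ∈ D.rest A B := hXr a (by rw [hXab]; simp)
    have hbr : b ∈ D.rest A B := hXr b (by rw [hXab]; simp)
    have h2 := hzero (insert b (insert a A))
      ((Finset.subset_insert _ _).trans (Finset.subset_insert _ _)) (by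
        rw [hXab]
        intro x hx
        simp only [Finset.mem_insert, Finset.mem_singleton] at hx ⊢
        tauto)
    have h3 := D.N_split (mem_rest_iff.1 har).1 (mem_rest_iff.1 har).2
    have h4 : D.N (insert a A) B = D.N (insert b (insert a A)) B +
        D.N (insert a A) (insert b B) := by
      apply D.N_split
      · rw [Finset.mem_insert, not_or]
        exact ⟨hab.symm, (mem_rest_iff.1 hbr).1⟩
      · exact (mem_rest_iff.1 hbr).2
    have h5 := bR a har
    have h6 := bLR a har b hbr hab.symm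
    rw [h2, Nat.zero_add] at h4
    rw [h3, h4]
    push_cast
    linarith

/-- the same for the unshaded side: apply `two_step` to `D.dual` (`N_dual`, `rest_dual`) -/
theorem two_step_dual (D : Diagram) {A B : Finset D.E} (hAB : Disjoint A B) (f : Comp D.h A)
    (n : ℕ) (x1 x2 : ℝ) (hn : (D.rest A B).card = n + 2) (hx1 : 1 ≤ x1) (hx2 : 0 ≤ x2)
    (ih1 : ∀ A' B' : Finset D.E, Disjoint A' B' → (D.rest A' B').card = n + 1 →
      (D.N A' B' : ℝ) ≤ x1)
    (ih2 : ∀ A' B' : Finset D.E, Disjoint A' B' → (D.rest A' B').card = n →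
      (D.N A' B' : ℝ) ≤ x2)
    (hf : degR D.h A (D.rest A B) f ≤ 2) : (D.N A B : ℝ) ≤ x1 + x2 := by
  have hs := two_step D.dual (A := B) (B := A) hAB.symm f n x1 x2
    (by rw [D.rest_dual]; exact hn) hx1 hx2
    (fun A' B' hd hr => by
      have e := D.N_dual B' A'
      have f := D.rest_dual B' A'
      rw [e]
      rw [f] at hr
      exact ih1 B' A' hd.symm hr)
    (fun A' B' hd hr => by
      have e := D.N_dual B' A'
      have f := D.rest_dual B' A'
      rw [e]
      rw [f] at hr
      exact ih2 B' A' hd.symm hr)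
    (by rw [D.rest_dual]; exact hf)
  rw [D.N_dual] at hs
  exact hs

/-- a loop can be deleted -/
theorem loop_step (D : Diagram) {A B : Finset D.E} {e : D.E} (he : e ∈ D.rest A B)
    (hc : Conn D.g B (D.g e).1 (D.g e).2) : D.N A B = D.N (insert e A) B := by
  have h := D.N_split (mem_rest_iff.1 he).1 (mem_rest_iff.1 he).2
  rw [N_insert_of_conn (mem_rest_iff.1 he).2 hc] at h
  exact h

/-- a bridge can be contracted (the dual of `loop_step`) -/
theorem bridge_step (D : Diagram) {A B : Finset D.E} {e : D.E} (he : e ∈ D.rest A B)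
    (hc : Conn D.h A (D.h e).1 (D.h e).2) : D.N A B = D.N A (insert e B) := by
  have h := loop_step D.dual (A := B) (B := A) (e := e) (by rw [D.rest_dual]; exact he) hc
  rw [D.N_dual, D.N_dual] at h
  exact h

end Pool.Agent.Lib.TDisc
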